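import Pool.Agent.MP_082264_lc.cl.ModelLine

/-!
The cones of the closed model: the inside of a parabola, cut by the chords between consecutive
integers and by small chords around the integers which are not marked.
-/

set_option autoImplicit false

namespace Pool.Agent.MP_082264_lc.Cl

open Set Function

def AC (f : E → ℝ) : Prop := Aff f ∧ Continuous f

theorem AC.lin {f g h : E → ℝ} (hf : AC f) (hg : AC g) (hh : AC h) (a b c : ℝ) (k : E → ℝ)
    (hk : ∀ p, k p = a * f p + b * g p + c * h p) : AC k := by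
  obtain rfl : k = fun p => a * f p + b * g p + c * h p := funext hk
  refine ⟨fun p q s t hst => ?_, ?_⟩
  · simp only [hf.1 p q s t hst, hg.1 p q s t hst, hh.1 p q s t hst]
    ring
  · have := hf.2; have := hg.2; have := hh.2
    fun_prop

theorem ac_of (a b c d : ℝ) (k : E → ℝ) (hk : ∀ p, k p = a * p 0 + b * p 1 + c * p 2 + d) :
    AC k := by
  obtain rfl : k = fun p : E => a * p 0 + b * p 1 + c * p 2 + d := funext hk
  exact ⟨aff_of _ fun p q s => by simp; ring, by fun_prop⟩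

/-- Closed convex cones in weight space. -/
def GC (C : ℝ → ℝ → ℝ → Prop) : Prop :=
  C 0 0 0 ∧ ∀ f g h : E → ℝ, AC f → AC g → AC h →
    Convex ℝ {p | C (f p) (g p) (h p)} ∧ IsClosed {p | C (f p) (g p) (h p)}

theorem GC.of_iff {C C' : ℝ → ℝ → ℝ → Prop} (h : GC C) (e : ∀ y w z, C y w z ↔ C' y w z) :
    GC C' := by
  obtain rfl : C = C' := by funext y w z; exact propext (e y w z)
  exact h

theorem gc_half (a b c : ℝ) : GC fun y w z => 0 ≤ a * y + b * w + c * z :=
  ⟨by simp, fun _ _ _ hf hg hh =>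
    have := hf.lin hg hh a b c _ fun _ => rfl
    half_ok this.1 this.2⟩

theorem gc_eq (a b c : ℝ) : GC fun y w z => a * y + b * w + c * z = 0 :=
  ⟨by simp, fun _ _ _ hf hg hh =>
    have := hf.lin hg hh a b c _ fun _ => rfl
    plane_ok this.1 this.2⟩

theorem GC.and {C C' : ℝ → ℝ → ℝ → Prop} (h : GC C) (h' : GC C') :
    GC fun y w z => C y w z ∧ C' y w z :=
  ⟨⟨h.1, h'.1⟩, fun f g k hf hg hk => inter_ok (h.2 f g k hf hg hk) (h'.2 f g k hf hg hk)⟩

theorem gc_all {α : Sort _} {C : α → ℝ → ℝ → ℝ → Prop} (h : ∀ i, GC (C i)) :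
    GC fun y w z => ∀ i, C i y w z :=
  ⟨fun i => (h i).1, fun f g k hf hg hk => by
    rw [ofPred_forall]
    exact ⟨convex_iInter fun i => ((h i).2 f g k hf hg hk).1,
      isClosed_iInter fun i => ((h i).2 f g k hf hg hk).2⟩⟩

/-- The inner side of the chord between the parameters `a` and `b`. -/
def chord (a b y w z : ℝ) : Prop := 0 ≤ y - (a + b) * z + a * b * w

theorem gc_chord (a b : ℝ) : GC (chord a b) :=
  (gc_half 1 (a * b) (-(a + b))).of_iff fun y w z => by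
    unfold chord
    constructor <;> intro h <;> linarith

def Kc (S : Set ℤ) (y w z : ℝ) : Prop :=
  (∀ t : ℝ, chord t t y w z) ∧ (∀ n : ℤ, chord n (n + 1) y w z) ∧
    ∀ u : ℤ, u ∉ S → chord (u - 1 / 20) (u + 1 / 20) y w z

theorem gc_Kc (S : Set ℤ) : GC (Kc S) :=
  (gc_all fun _ => gc_chord _ _).and ((gc_all fun _ => gc_chord _ _).and
    (gc_all fun _ => gc_all fun _ => gc_chord _ _))

theorem gc_ray (t : ℝ) : GC (Ray t) :=
  ((gc_half 0 1 0).and ((gc_eq 1 (-t ^ 2) 0).and (gc_eq 0 (-t) 1))).of_iff fun y w z => by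
    unfold Ray
    constructor <;> rintro ⟨h1, h2, h3⟩ <;> exact ⟨by linarith, by linarith, by linarith⟩

theorem chord_nest {a b a' b' y w z : ℝ} (h : chord a b y w z) (h1 : chord a' a' y w z)
    (h2 : chord b' b' y w z) (ha : a ≤ a') (hab : a' < b') (hb : b' ≤ b) : chord a' b' y w z := by
  unfold chord at *
  by_contra hf
  push Not at hf
  have d : 0 < b' - a' := by linarith
  have e1 : 0 < z - a' * w := pos_of_mul_pos_left (b := b' - a') (by nlinarith) d.le
  have e2 : 0 < b' * w - z := pos_of_mul_pos_left (b := b' - a') (by nlinarith) d.le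
  have e3 : 0 < w := pos_of_mul_pos_left (b := b' - a') (by nlinarith) d.le
  have p1 := mul_nonneg (sub_nonneg.2 hb) e1.le
  have p2 := mul_nonneg (sub_nonneg.2 ha) e2.le
  have p3 := mul_nonneg (mul_nonneg (sub_nonneg.2 ha) (sub_nonneg.2 hb)) e3.le
  nlinarith

theorem ray_Kc {S : Set ℤ} {k : ℤ} (hk : k ∈ S) {y w z : ℝ} (h : Ray k y w z) : Kc S y w z := by
  obtain ⟨h0, rfl, rfl⟩ := h
  unfold Kc chord
  refine ⟨fun t => ?_, fun n => ?_, fun u hu => ?_⟩
  · nlinarith [mul_nonneg h0 (sq_nonneg ((k : ℝ) - t))]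
  · have : (0 : ℤ) ≤ (k - n) * (k - n - 1) := by
      rcases le_or_gt (k - n) 0 with h | h <;> nlinarith
    have : (0 : ℝ) ≤ ((k : ℝ) - n) * (k - n - 1) := by exact_mod_cast this
    nlinarith [mul_nonneg h0 this]
  · have : (1 : ℤ) ≤ (k - u) ^ 2 := by
      have : k - u ≠ 0 := fun e => hu (by rwa [← sub_eq_zero.1 e])
      exact Int.add_one_le_iff.2 (sq_pos_iff.2 this)
    have : (1 : ℝ) ≤ ((k : ℝ) - u) ^ 2 := by exact_mod_cast this
    nlinarith [mul_nonneg h0 (sub_nonneg.2 this)]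

theorem Kc.inter {S S' S'' : Set ℤ} (hS : S ∩ S' ⊆ S'') {y w z : ℝ} (h : Kc S y w z)
    (h' : Kc S' y w z) : Kc S'' y w z :=
  ⟨h.1, h.2.1, fun u hu => by
    by_cases h1 : u ∈ S
    · exact h'.2.2 u fun h2 => hu (hS ⟨h1, h2⟩)
    · exact h.2.2 u h1⟩

theorem Kc.up {y w z : ℝ} (h : Kc univ (y - 2 * z + w) w (z - w)) : Kc univ y w z := by
  refine ⟨fun t => ?_, fun n => ?_, fun u hu => absurd (mem_univ u) hu⟩
  · have := h.1 (t - 1)
    unfold chord at *
    linarith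
  · have := h.2.1 (n - 1)
    unfold chord at *
    push_cast at this
    linarith

theorem Kc.down {y w z : ℝ} (h : Kc ∅ ((y + 2 * z + w) / 6) (w / 6) ((z + w) / 6)) :
    Kc ∅ y w z := by
  refine ⟨fun t => ?_, fun n => ?_, fun u hu => ?_⟩
  · have := h.1 (t + 1)
    unfold chord at *
    linarith
  · have := h.2.1 (n + 1)
    unfold chord at *
    push_cast at this
    linarith
  · have := h.2.2 (u + 1) (notMem_empty _)
    unfold chord at *
    push_cast at this
    linarith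

theorem chord_scale {a b y w z l : ℝ} (hl : 0 < l) (h : chord a b (y / l ^ 2) w (z / l)) :
    chord (l * a) (l * b) y w z := by
  unfold chord at *
  have e : y - (l * a + l * b) * z + l * a * (l * b) * w =
      l ^ 2 * (y / l ^ 2 - (a + b) * (z / l) + a * b * w) := by field_simp
  rw [e]
  exact mul_nonneg (sq_nonneg l) h

theorem Kc.dil {S S' : Set ℤ} {p q : ℕ} (hp : 0 < p) (hp' : p ≤ 20) (hpq : p < q)
    (hS : ∀ t ∈ S, ∀ u : ℤ, p * u = q * t → u ∈ S') {y w z : ℝ}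
    (h : Kc S (y / ((q : ℝ) / p) ^ 2) w (z / ((q : ℝ) / p))) (hG : Kc univ y w z) :
    Kc S' y w z := by
  refine ⟨hG.1, hG.2.1, fun u hu => ?_⟩
  have p0 : (0 : ℝ) < p := by exact_mod_cast hp
  have p1 : (p : ℝ) ≤ 20 := by exact_mod_cast hp'
  have pq : (p : ℝ) < q := by exact_mod_cast hpq
  have hl : (0 : ℝ) < (q : ℝ) / p := div_pos (by linarith) p0
  have q0 : (0 : ℤ) < q := by exact_mod_cast hp.trans hpq
  have e := Int.mul_ediv_add_emod (p * u) q
  have r0 := Int.emod_nonneg (p * u) q0.ne'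
  have r1 := Int.emod_lt_of_pos (p * u) q0
  set n := (p * u : ℤ) / q
  set r := (p * u : ℤ) % q
  have e' : (q : ℝ) * n + r = p * u := by exact_mod_cast e
  rcases r0.eq_or_lt with r0 | r0
  · have hn : n ∉ S := fun hn => hu (hS n hn u (by rw [← e, ← r0, add_zero]))
    have r' : (r : ℝ) = 0 := by exact_mod_cast r0.symm
    refine chord_nest (chord_scale hl (h.2.2 n hn)) (hG.1 _) (hG.1 _) ?_ (by linarith) ?_
    · rw [div_mul_eq_mul_div, div_le_iff₀ p0]; nlinarith
    · rw [div_mul_eq_mul_div, le_div_iff₀ p0]; nlinarith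
  · have a1 : (1 : ℝ) ≤ r := by exact_mod_cast r0
    have a2 : (r : ℝ) + 1 ≤ q := by exact_mod_cast r1
    refine chord_nest (chord_scale hl (h.2.1 n)) (hG.1 _) (hG.1 _) ?_ (by linarith) ?_
    · rw [div_mul_eq_mul_div, div_le_iff₀ p0]; nlinarith
    · rw [div_mul_eq_mul_div, le_div_iff₀ p0]; nlinarith

/-- The code of a grid point with a clock. -/
def tk (v : Gr) (k : ℕ) : ℕ := tn v * 17 ^ k

theorem tk_fac (v : Gr) (k : ℕ) (c : Co) : (tk v k).factorization (pr c) = v c := by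
  have h17 : Nat.Prime 17 := by norm_num
  have hne : ∀ c, 17 ≠ pr c := by decide
  have h0 : tn v ≠ 0 := Finset.prod_ne_zero_iff.2 fun d _ => pow_ne_zero _ (pr_prime d).ne_zero
  unfold tk
  rw [Nat.factorization_mul h0 (by positivity), h17.factorization_pow]
  unfold tn
  rw [Nat.factorization_prod (fun d _ => pow_ne_zero _ (pr_prime d).ne_zero)]
  simp only [Finsupp.coe_add, Pi.add_apply, Finsupp.coe_finsetSum, Finset.sum_apply,
    Nat.Prime.factorization_pow (pr_prime _), Finsupp.single_apply, pr_inj.eq_iff, hne c]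
  simp

theorem tk_inj {v v' : Gr} {k k' : ℕ} (h : tk v k = tk v' k') : v = v' := by
  funext c
  rw [← tk_fac v k c, ← tk_fac v' k' c, h]

theorem tk_ne (v : Gr) (k : ℕ) : tk v k ≠ 0 :=
  mul_ne_zero (Finset.prod_ne_zero_iff.2 fun d _ => pow_ne_zero _ (pr_prime d).ne_zero)
    (by positivity)

/-- The marked integers of a set of grid points. -/
def mk (A : Set Gr) : Set ℤ := {t | ∃ v ∈ A, ∃ k, t = tk v k}

theorem mk_up {A B : Set Gr} {c : Co} (h : ∀ v ∈ A, inc c v ∈ B) :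
    ∀ t ∈ mk A, ∀ u : ℤ, (1 : ℕ) * u = (pr c : ℕ) * t → u ∈ mk B := by
  rintro _ ⟨v, hv, k, rfl⟩ u e
  refine ⟨_, h v hv, k, ?_⟩
  simp only [tk, tn_inc] at e ⊢
  push_cast at e ⊢
  linarith

theorem mk_wait (A : Set Gr) :
    ∀ t ∈ mk A, ∀ u : ℤ, (1 : ℕ) * u = (17 : ℕ) * t → u ∈ mk A := by
  rintro _ ⟨v, hv, k, rfl⟩ u e
  refine ⟨_, hv, k + 1, ?_⟩
  simp only [tk] at e ⊢
  push_cast at e ⊢
  linear_combination e

theorem mk_down {A B : Set Gr} {c : Co} (h : ∀ v, inc c v ∈ A → v ∈ B) :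
    ∀ t ∈ mk A, ∀ u : ℤ, (pr c : ℕ) * u = (17 : ℕ) * t → u ∈ mk B := by
  rintro _ ⟨v, hv, k, rfl⟩ u e
  have e1 : (pr c : ℤ) * u = tk v (k + 1) := by
    simp only [tk] at e ⊢
    push_cast at e ⊢
    linear_combination e
  have hd : pr c ∣ tk v (k + 1) := Int.natCast_dvd_natCast.1 ⟨u, e1.symm⟩
  rw [(pr_prime c).dvd_iff_one_le_factorization (tk_ne _ _), tk_fac] at hd
  have e2 : v = inc c (update v c (v c - 1)) := by simp [inc, Nat.sub_add_cancel hd]
  refine ⟨_, h _ (e2 ▸ hv), k + 1, ?_⟩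
  have p0 : (pr c : ℤ) ≠ 0 := by exact_mod_cast (pr_prime c).ne_zero
  refine mul_left_cancel₀ p0 ?_
  rw [e1]
  conv_lhs => rw [e2]
  simp only [tk, tn_inc]
  push_cast
  ring

theorem mk_inter {A B C : Set Gr} (h : A ∩ B ⊆ C) : mk A ∩ mk B ⊆ mk C := by
  rintro _ ⟨⟨v, hv, k, rfl⟩, v', hv', k', e⟩
  obtain rfl := tk_inj (Int.natCast_inj.1 e)
  exact ⟨v, h ⟨hv, hv'⟩, k, rfl⟩

theorem one_mem_mk {A : Set Gr} (h : (fun _ => 0) ∈ A) : (1 : ℤ) ∈ mk A :=
  ⟨_, h, 0, by simp [tk, tn_zero]⟩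

end Pool.Agent.MP_082264_lc.Cl
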