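import Pool.Agent.MP_082264_lc.Reduction

/-!
Closed convex codes in dimension three: names of the sets and the constraints on them.

Plane `D` with frame `V 0, V 1, V 2` and weights `(Y, W, Z)`; the integer `n` sits at the
weights `(n ^ 2, 1, n)`.  A tilt is a pair of central projections `D → D' → D` which fixes two
frame vertices `f1, f2` and sends the vertex `src` to `tgt`.
-/

set_option autoImplicit false

namespace Pool.Agent.MP_082264_lc.Cl

open Set Function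

/-- The moves: multiply by `p`, by `17 / p`, by `17`. -/
inductive Mv : Type
  | up (c : Co) | down (c : Co) | wait
  deriving Fintype, Countable

def Mv.num : Mv → ℕ
  | .up c => pr c
  | _ => 17

def Mv.den : Mv → ℕ
  | .down c => pr c
  | _ => 1

/-- The tilts: two shears, three steps of the inverse translation, two steps of a dilation. -/
inductive El : Type
  | A | B | R0 | R1 | R2 | H0 (m : Mv) | H2 (m : Mv)
  deriving Fintype, Countable

/-- Named lines: through `V 0` and the integer `k`, through `V 2` and the integer `k`, the edge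
`V 0 V 2`, and the two lines of a tilt. -/
inductive Ln : Type
  | c0 (k : Fin 18) | c2 (k : Fin 18) | edge | t (e : El) (b : Bool)
  deriving Fintype, Countable

/-- Named points. -/
inductive Pt : Type
  | V (i : Fin 3) | M | M' | a (e : El) | v (e : El) | a' (e : El)
  | p1 (l : Ln) (s : Bool) | p3 (l : Ln) (s : Bool) | tet (l : Ln) (k : Fin 4)
  deriving Fintype, Countable

/-- The six sets of a flat gadget. -/
inductive Fl : Type
  | C | A | B | P1 | P3 | T
  deriving Countable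

/-- The sets of the rigid frame. -/
inductive Fix : Type
  | pt (y : Pt) | fl (l : Ln) (s : Bool) (j : Fl) | FT (l : Ln) (k : Fin 4) | FV (i : Fin 3) | D
  | D' (e : El) | U (e : El) (j : Fin 4) | UM (j : Fin 4)
  deriving Countable

/-- Planar predicates. -/
inductive Bs (ι : Type) : Type
  | user (i : ι) | grid | pw | halt | v2 | ch (k : ℕ)
  deriving Countable

inductive Tag : Type
  | K | X (e : El) | Y (e : El)
  deriving Countable

/-- Names of all sets; `aux .K L b` is the image of the predicate `b` under the tilts in `L`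
(the head of the list is applied last). -/
inductive Name (ι : Type) : Type
  | fix (a : Fix) | aux (t : Tag) (L : List El) (b : Bs ι)

variable {ι : Type}

instance [Countable ι] : Countable (Name ι) := by
  refine Function.Injective.countable (f := fun n : Name ι => match n with
    | .fix a => (Sum.inl a : Fix ⊕ Tag × List El × Bs ι)
    | .aux t L b => Sum.inr (t, L, b)) ?_
  rintro (a | ⟨t, L, b⟩) (a' | ⟨t', L', b'⟩) h <;> simp_all

abbrev P (y : Pt) : Name ι := .fix (.pt y)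
abbrev K (L : List El) (b : Bs ι) : Name ι := .aux .K L b
abbrev F (l : Ln) (s : Bool) (j : Fl) : Name ι := .fix (.fl l s j)

def src : El → Name ι
  | .A => P (.V 2) | .B => P (.V 1) | .R0 => P (.V 0) | .R1 => K [] (.ch 1)
  | .R2 => K [.A, .A] .v2 | .H0 _ => P (.V 0) | .H2 _ => P (.V 2)

def tgt : El → Name ι
  | .A => P .M | .B => P .M' | .R0 => P (.V 0) | .R1 => P (.V 1)
  | .R2 => P (.V 2) | .H0 _ => P (.V 0) | .H2 _ => P (.V 2)

def f1 : El → Name ι
  | .R0 => P (.V 1) | .H0 _ => P (.V 1) | _ => P (.V 0)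

def f2 : El → Name ι
  | .A => P (.V 1) | .B => P (.V 2) | .R0 => P (.V 2) | .R1 => K [.A, .A] .v2
  | .R2 => P (.V 1) | .H0 _ => P (.V 2) | .H2 _ => P (.V 1)

variable (X : Name ι → Set E)

/-- One tilt applied to the set `K L b`. -/
def Tilt (e : El) (L : List El) (b : Bs ι) : Prop :=
  X (K L b) ⊆ X (.aux (.X e) L b) ∧ X (P (.a e)) ⊆ X (.aux (.X e) L b) ∧
  X (.aux (.X e) L b) ∩ X (.fix (.D' e)) ⊆ X (.aux (.Y e) L b) ∧
  X (P (.a' e)) ⊆ X (.aux (.Y e) L b) ∧
  X (.aux (.Y e) L b) ∩ X (.fix .D) ⊆ X (K (e :: L) b)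

/-- The translation `n ↦ n + 1` from `b` to `d`. -/
def Tau (b d : Bs ι) : Prop :=
  Tilt X .A [] b ∧ Tilt X .B [.A] b ∧ Tilt X .A [.B, .A] b ∧ X (K [.A, .B, .A] b) ⊆ X (K [] d)

/-- The translation `n + 1 ↦ n` from `b` to `d`. -/
def Back (b d : Bs ι) : Prop :=
  Tilt X .R1 [] b ∧ Tilt X .R2 [.R1] b ∧ Tilt X .R0 [.R2, .R1] b ∧
  X (K [.R0, .R2, .R1] b) ⊆ X (K [] d)

/-- The dilation by `m.num / m.den` from `b` to `d`, guarded by the grid. -/
def Dil (m : Mv) (b d : Bs ι) : Prop :=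
  Tilt X (.H2 m) [] b ∧ Tilt X (.H0 m) [.H2 m] b ∧
  X (K [.H0 m, .H2 m] b) ∩ X (K [] .grid) ⊆ X (K [] d)

def RuleCons : Rule ι → Prop
  | .base j => X (K [] (.ch 1)) ⊆ X (K [] (.user j))
  | .up c i j => Dil X (.up c) (.user i) (.user j)
  | .down c i j => Dil X (.down c) (.user i) (.user j)
  | .inter i l j => Dil X .wait (.user i) (.user i) ∧ Dil X .wait (.user l) (.user l) ∧
      X (K [] (.user i)) ∩ X (K [] (.user l)) ⊆ X (K [] (.user j))

/-- The last constraint: a power of `17` in the predicate `z` starts the halt signal. -/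
def Final (z : ι) : Prop := X (K [] (.user z)) ∩ X (K [] .pw) ⊆ X (K [] .halt)

/-- The named set lies on the named line. -/
def OnL (n : Name ι) (l : Ln) : Prop := X n ⊆ X (F l false .C) ∧ X n ⊆ X (F l true .C)

/-- Order constraints for three named sets. -/
def Btw (x y z u u' : Name ι) : Prop :=
  X x ⊆ X u ∧ X y ⊆ X u ∧ Disjoint (X z) (X u) ∧ X y ⊆ X u' ∧ X z ⊆ X u' ∧ Disjoint (X x) (X u')

/-- The gadget which forces the closed convex set `F l s .C` into a plane. -/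
def Flat (l : Ln) (s : Bool) : Prop :=
  X (F l s .T) ⊆ X (F l s .A) ∪ X (F l s .B) ∧
  X (P (.p1 l s)) ⊆ X (F l s .T) ∧ X (P (.p1 l s)) ⊆ X (F l s .A) ∧
  X (P (.p1 l s)) ⊆ X (F l s .P1) ∧
  X (P (.p3 l s)) ⊆ X (F l s .T) ∧ X (P (.p3 l s)) ⊆ X (F l s .B) ∧
  X (P (.p3 l s)) ⊆ X (F l s .P3) ∧
  X (F l s .C) ⊆ X (F l s .A) ∧ X (F l s .C) ⊆ X (F l s .B) ∧
  X (F l s .C) ⊆ X (F l s .P1) ∧ X (F l s .C) ⊆ X (F l s .P3) ∧
  X (F l s .P1) ∩ (X (F l s .A) ∩ X (F l s .B)) ⊆ X (F l s .C) ∧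
  X (F l s .P3) ∩ (X (F l s .A) ∩ X (F l s .B)) ⊆ X (F l s .C) ∧
  Disjoint (X (F l s .T)) (X (F l s .C))

/-- The constraints which make the named lines lines. -/
structure LineCons : Prop where
  flat : ∀ l s, Flat X l s
  tet : ∀ l k, X (P (.tet l k)) ⊆ X (F l (decide (k = 3)) .C)
  fac : ∀ l k j, j ≠ k → X (P (.tet l j)) ⊆ X (.fix (.FT l k))
  facE : ∀ l x, ¬ ∀ k, x ∈ X (.fix (.FT l k))

/-- The constraints which place the points of the tilts. -/
structure TiltCons : Prop where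
  fv : ∀ i j, j ≠ i → X (P (.V j)) ⊆ X (.fix (.FV i))
  fvE : ∀ x, ¬ ∀ i, x ∈ X (.fix (.FV i))
  pl : ∀ i, X (P (.V i)) ⊆ X (.fix .D)
  on1 : ∀ e, OnL X (P (.a e)) (.t e false)
  on2 : ∀ e, OnL X (P (.v e)) (.t e false)
  on3 : ∀ e, OnL X (src e) (.t e false)
  on4 : ∀ e, OnL X (P (.v e)) (.t e true)
  on5 : ∀ e, OnL X (tgt e) (.t e true)
  on6 : ∀ e, OnL X (P (.a' e)) (.t e true)
  bt1 : ∀ e, Btw X (P (.a e)) (P (.v e)) (src e) (.fix (.U e 0)) (.fix (.U e 1))
  bt2 : ∀ e, Btw X (P (.v e)) (tgt e) (P (.a' e)) (.fix (.U e 2)) (.fix (.U e 3))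
  d1 : ∀ e, X (P (.v e)) ⊆ X (.fix (.D' e))
  d2 : ∀ e, X (f1 e) ⊆ X (.fix (.D' e))
  d3 : ∀ e, X (f2 e) ⊆ X (.fix (.D' e))
  e1 : OnL X (P (.V 0)) .edge
  e2 : OnL X (P .M) .edge
  e3 : OnL X (P (.V 2)) .edge
  e4 : Btw X (P (.V 0)) (P .M) (P (.V 2)) (.fix (.UM 0)) (.fix (.UM 1))
  e5 : OnL X (P (.V 1)) (.c2 0)
  e6 : OnL X (P .M') (.c2 0)
  e7 : Btw X (P (.V 1)) (P .M') (P (.V 2)) (.fix (.UM 2)) (.fix (.UM 3))

/-- The constraints which fix the scales of the maps, the grid and the halt signal. -/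
structure MapCons : Prop where
  l0 : ∀ k, OnL X (P (.V 0)) (.c0 k)
  l2 : ∀ k, OnL X (P (.V 2)) (.c2 k)
  m0 : ∀ k : Fin 18, OnL X (K [] (.ch k)) (.c0 k)
  m2 : ∀ k : Fin 18, OnL X (K [] (.ch k)) (.c2 k)
  ch0 : X (P (.V 1)) ⊆ X (K [] (.ch 0))
  chs : ∀ k : Fin 17, Tau X (.ch k) (.ch (k + 1))
  ckA : OnL X (K [.A] (.ch 1)) (.c0 1)
  tB : Tilt X .B [] (.ch 1)
  ckB : OnL X (K [.B] (.ch 1)) (.c2 1)
  v0 : X (P (.V 2)) ⊆ X (K [] .v2)
  v1 : Tilt X .A [] .v2
  v2 : Tilt X .A [.A] .v2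
  bk : Back X (.ch 2) (.ch 1)
  dl1 : ∀ m : Mv, Tilt X (.H2 m) [] (.ch m.den)
  dl2 : ∀ m : Mv, Tilt X (.H0 m) [.H2 m] (.ch m.den)
  dl3 : ∀ m : Mv, X (K [.H0 m, .H2 m] (.ch m.den)) ⊆ X (K [] (.ch m.num))
  gr0 : X (P (.V 1)) ⊆ X (K [] .grid)
  gr1 : Tau X .grid .grid
  pw0 : X (K [] (.ch 1)) ⊆ X (K [] .pw)
  pw1 : Dil X .wait .pw .pw
  ha0 : Back X .halt .halt
  ha1 : Disjoint (X (P (.V 1))) (X (K [] .halt))

/-- All constraints for the Horn system `R` and the predicate `z`. -/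
def Cons (R : List (Rule ι)) (z : ι) : Prop :=
  LineCons X ∧ TiltCons X ∧ MapCons X ∧ (∀ r ∈ R, RuleCons X r) ∧ Final X z ∧
    ∀ y, (X (P y)).Nonempty

/-- Soundness: a closed convex solution gives a model which omits the origin. -/
def SoundStmt : Prop :=
  ∀ (ι : Type) (R : List (Rule ι)) (z : ι) (X : Name ι → Set E), (∀ n, Convex ℝ (X n)) →
    (∀ n, IsClosed (X n)) → Cons X R z → ∃ S, Model R S ∧ (fun _ => 0) ∉ S z

/-- Completeness: a model which omits the origin gives a closed convex solution. -/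
def CompleteStmt : Prop :=
  ∀ (ι : Type) (R : List (Rule ι)) (z : ι) (S : ι → Set Gr), Model R S → (fun _ => 0) ∉ S z →
    ∃ X : Name ι → Set E, (∀ n, Convex ℝ (X n)) ∧ (∀ n, IsClosed (X n)) ∧ Cons X R z

end Pool.Agent.MP_082264_lc.Cl
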