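import Pool.Agent.MP_082264_lc.Gadgets

/-!
Geometry of the gadgets for closed convex sets: flat sets, lines and tilts.
-/

set_option autoImplicit false

namespace Pool.Agent.MP_082264_lc.Cl

open Set Function

theorem crossing {T A B : Set E} (cT : Convex ℝ T) (hA : IsClosed A) (hB : IsClosed B)
    (cov : T ⊆ A ∪ B) {p q : E} (pT : p ∈ T) (pA : p ∈ A) (qT : q ∈ T) (qB : q ∈ B) :
    ∃ x ∈ segment ℝ p q, x ∈ A ∧ x ∈ B := by
  obtain ⟨x, hx, h⟩ := isPreconnected_closed_iff.1 (convex_segment p q).isPreconnected A B hA hB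
    ((cT.segment_subset pT qT).trans cov) ⟨p, left_mem_segment ℝ p q, pA⟩
    ⟨q, right_mem_segment ℝ p q, qB⟩
  exact ⟨x, hx, h⟩

theorem climb {C Q P : Set E} (cQ : Convex ℝ Q) (cP : Convex ℝ P) (hCQ : C ⊆ Q) (hCP : C ⊆ P)
    (h : P ∩ Q ⊆ C) {c p q : E} {a b β δ : ℝ} (hp : p ∈ P)
    (hz : c + a • (p - c) + b • (q - c) ∈ C) (h2 : c + (1 - β) • (p - c) + β • (q - c) ∈ Q)
    (hu : c + δ • (p - q) ∈ C) (hβ : 0 ≤ β) (hs0 : 0 ≤ a + b) (hs : a + b < 1)
    (hlt : (a + b) * β < (1 - (a + b)) * δ + b) :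
    ∃ ε : ℝ, 0 < ε ∧ ε ≤ 1 ∧ c + ((1 - ε) * a + ε) • (p - c) + ((1 - ε) * b) • (q - c) ∈ C := by
  set m := (1 - (a + b)) * δ + b with hm
  have hd : 0 < m - (a + b) * β + β := by linarith
  set ε := (m - (a + b) * β) / (m - (a + b) * β + β) with hε
  have h0 : 0 < ε := div_pos (by linarith) hd
  have h1 : ε ≤ 1 := by rw [hε, div_le_one hd]; linarith
  have e : ((1 - ε) * (a + b) + ε) * β = (1 - ε) * m := by
    rw [hε]; field_simp; ring
  refine ⟨ε, h0, h1, h ⟨?_, ?_⟩⟩
  · have := cP (hCP hz) hp (sub_nonneg.2 h1) h0.le (by ring)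
    convert this using 1
    module
  · have := cQ h2 (hCQ hu) (a := (1 - ε) * (a + b) + ε) (b := (1 - ε) * (1 - (a + b)))
      (by have := mul_nonneg (sub_nonneg.2 h1) hs0; linarith)
      (mul_nonneg (sub_nonneg.2 h1) (by linarith)) (by ring)
    convert this using 1
    match_scalars
    · ring
    · rw [hm] at e; linear_combination e
    · rw [hm] at e; linear_combination -e

theorem no_segment {C Q P P' : Set E} (cC : Convex ℝ C) (hC : IsClosed C) (cQ : Convex ℝ Q)
    (cP : Convex ℝ P) (cP' : Convex ℝ P') (hCQ : C ⊆ Q) (hCP : C ⊆ P) (hCP' : C ⊆ P')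
    (h : P ∩ Q ⊆ C) (h' : P' ∩ Q ⊆ C) {p q x c : E} {δ : ℝ} (hp : p ∈ P) (hq : q ∈ P')
    (hx : x ∈ segment ℝ p q) (hxQ : x ∈ Q) (hd : ∀ y ∈ segment ℝ p q, y ∉ C) (hδ : 0 < δ)
    (hu : c + δ • (p - q) ∈ C) (hu' : c - δ • (p - q) ∈ C) : False := by
  have hc : c ∈ C := by
    have := cC hu hu' (a := 1 / 2) (b := 1 / 2) (by norm_num) (by norm_num) (by norm_num)
    convert this using 1
    module
  let S : Set (ℝ × ℝ) := (Icc 0 1 ×ˢ Icc 0 1) ∩
    ({w | w.1 + w.2 ≤ 1} ∩ {w | c + w.1 • (p - c) + w.2 • (q - c) ∈ C})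
  have hS : IsCompact S := (isCompact_Icc.prod isCompact_Icc).inter_right
    ((isClosed_le (by fun_prop) continuous_const).inter (hC.preimage (by fun_prop)))
  have hne : S.Nonempty := ⟨(0, 0), by simp, by simp, by simpa using hc⟩
  obtain ⟨⟨a, b⟩, ⟨⟨⟨a0, a1⟩, b0, b1⟩, hab, hz⟩, hmax⟩ :=
    hS.exists_isMaxOn hne (f := fun w => w.1 + w.2) (by fun_prop)
  simp only [mem_ofPred_eq] at a0 a1 b0 b1 hab hz
  have hs : a + b < 1 := by
    refine lt_of_le_of_ne hab fun e => hd _ ⟨a, b, a0, b0, e, ?_⟩ hz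
    obtain rfl : b = 1 - a := by linarith
    module
  obtain ⟨α, β, α0, β0, hαβ, rfl⟩ := hx
  by_cases hc : (a + b) * β < (1 - (a + b)) * δ + b
  · obtain ⟨ε, e0, e1, hε⟩ := climb cQ cP hCQ hCP h hp hz (β := β) (by
      obtain rfl : α = 1 - β := by linarith
      convert hxQ using 1
      module) hu β0 (by linarith) hs hc
    have n1 := mul_nonneg (sub_nonneg.2 e1) a0
    have n2 := mul_nonneg (sub_nonneg.2 e1) b0
    have n3 := mul_nonneg (sub_nonneg.2 e1) (sub_nonneg.2 hab)
    have := hmax (a := ((1 - ε) * a + ε, (1 - ε) * b))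
      ⟨⟨⟨by linarith, by nlinarith⟩, n2, by nlinarith⟩, by simp only [mem_ofPred_eq]; nlinarith, hε⟩
    simp only [mem_ofPred_eq] at this
    nlinarith
  · obtain ⟨ε, e0, e1, hε⟩ := climb cQ cP' hCQ hCP' h' (c := c) (p := q) (q := p) (a := b) (b := a)
      (β := α) (δ := δ) hq (by convert hz using 1; module) (by
      obtain rfl : β = 1 - α := by linarith
      convert hxQ using 1
      module) (by convert hu' using 1; module) α0 (by linarith) (by linarith) (by
        have := mul_pos (sub_pos.2 hs) hδ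
        obtain rfl : β = 1 - α := by linarith
        nlinarith)
    have n1 := mul_nonneg (sub_nonneg.2 e1) a0
    have n2 := mul_nonneg (sub_nonneg.2 e1) b0
    have n3 := mul_nonneg (sub_nonneg.2 e1) (sub_nonneg.2 hab)
    have := hmax (a := ((1 - ε) * a, (1 - ε) * b + ε))
      ⟨⟨⟨n1, by nlinarith⟩, by linarith, by nlinarith⟩, by simp only [mem_ofPred_eq]; nlinarith,
        by simp only [mem_ofPred_eq]; convert hε using 1; module⟩
    simp only [mem_ofPred_eq] at this
    nlinarith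

/-- The flat gadget: the centre spans at most a plane. -/
theorem flat_rank {C A B P P' T : Set E} (cC : Convex ℝ C) (cA : Convex ℝ A) (cB : Convex ℝ B)
    (cP : Convex ℝ P) (cP' : Convex ℝ P') (cT : Convex ℝ T) (hC : IsClosed C) (hA : IsClosed A)
    (hB : IsClosed B) (cov : T ⊆ A ∪ B) {p q : E} (pT : p ∈ T) (pA : p ∈ A) (pP : p ∈ P)
    (qT : q ∈ T) (qB : q ∈ B) (qP : q ∈ P') (h1 : C ⊆ A) (h2 : C ⊆ B) (h3 : C ⊆ P) (h4 : C ⊆ P')
    (h5 : P ∩ (A ∩ B) ⊆ C) (h6 : P' ∩ (A ∩ B) ⊆ C) (hd : Disjoint T C) :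
    Module.finrank ℝ (vectorSpan ℝ C) ≤ 2 := by
  by_contra hr
  have htop : vectorSpan ℝ C = ⊤ := by
    apply Submodule.eq_top_of_finrank_eq
    have := Submodule.finrank_le (vectorSpan ℝ C)
    simp only [finrank_euclideanSpace, Fintype.card_fin] at this ⊢
    omega
  have hne : C.Nonempty := by
    rcases C.eq_empty_or_nonempty with rfl | h
    · rw [vectorSpan_empty] at hr
      simp at hr
    · exact h
  obtain ⟨c, hc⟩ := cC.interior_nonempty_iff_affineSpan_eq_top.2
    ((AffineSubspace.affineSpan_eq_top_iff_vectorSpan_eq_top_of_nonempty ℝ E E hne).2 htop)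
  obtain ⟨δ, hδ, -, hu, hu'⟩ := exists_symm_small hc (p - q)
  obtain ⟨x, hx, hxA⟩ := crossing cT hA hB cov pT pA qT qB
  exact no_segment cC hC (cA.inter cB) cP cP' (subset_inter h1 h2) h3 h4 h5 h6 pP qP hx hxA
    (fun y hy => disjoint_left.1 hd (cT.segment_subset pT qT hy)) hδ hu hu'

/-- Two flat sets which together span the space meet in a line. -/
theorem collinear_inter {C C' : Set E} (h : Module.finrank ℝ (vectorSpan ℝ C) ≤ 2)
    (h' : Module.finrank ℝ (vectorSpan ℝ C') ≤ 2) (p : Fin 4 → E) (hp : AffineIndependent ℝ p)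
    (hm : ∀ k, p k ∈ C ∨ p k ∈ C') : Collinear ℝ (C ∩ C') := by
  rcases (C ∩ C').eq_empty_or_nonempty with he | ⟨c, hc, hc'⟩
  · rw [he]; exact collinear_empty _ _
  have hk : ∀ k, p k - c ∈ vectorSpan ℝ C ⊔ vectorSpan ℝ C' := fun k =>
    (hm k).elim (fun hk => Submodule.mem_sup_left (vsub_mem_vectorSpan ℝ hk hc))
      fun hk => Submodule.mem_sup_right (vsub_mem_vectorSpan ℝ hk hc')
  have htop : vectorSpan ℝ C ⊔ vectorSpan ℝ C' = ⊤ := by
    rw [eq_top_iff, ← hp.vectorSpan_eq_top_of_card_eq_finrank_add_one (by simp), vectorSpan_def,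
      Submodule.span_le]
    rintro _ ⟨_, ⟨i, rfl⟩, _, ⟨j, rfl⟩, rfl⟩
    have := Submodule.sub_mem _ (hk i) (hk j)
    simpa using this
  have e := Submodule.finrank_sup_add_finrank_inf_eq (vectorSpan ℝ C) (vectorSpan ℝ C')
  rw [htop] at e
  simp only [finrank_top, finrank_euclideanSpace, Fintype.card_fin] at e
  rw [collinear_iff_finrank_le_one]
  have := Submodule.finrank_mono (le_inf (vectorSpan_mono ℝ (inter_subset_left (s := C) (t := C')))
    (vectorSpan_mono ℝ (inter_subset_right (s := C) (t := C'))))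
  omega

/-- The point with weights `x, y, z` in the frame `A, B, C`. -/
noncomputable def pt3 (A B C : E) (x y z : ℝ) : E := (x + y + z)⁻¹ • (x • A + y • B + z • C)

theorem pt3_mem {D : Set E} (hD : Convex ℝ D) {A B C : E} (hA : A ∈ D) (hB : B ∈ D) (hC : C ∈ D)
    {x y z : ℝ} (hx : 0 ≤ x) (hy : 0 ≤ y) (hz : 0 ≤ z) (hs : 0 < x + y + z) :
    pt3 A B C x y z ∈ D := by
  have := hD.centerMass_mem (t := Finset.univ) (w := ![x, y, z]) (z := ![A, B, C])
    (fun i _ => by fin_cases i <;> simpa) (by simpa [Fin.sum_univ_three] using hs)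
    (fun i _ => by fin_cases i <;> simpa)
  simpa [Finset.centerMass, Fin.sum_univ_three, pt3] using this

theorem pt3_proj {X : Set E} (hX : Convex ℝ X) {A B C a : E} {γ x y z : ℝ} (h0 : 0 < γ)
    (h1 : γ ≤ 1) (hz : 0 ≤ z) (hs : 0 < x + y + z) (ha : a ∈ X) (hp : pt3 A B C x y z ∈ X) :
    pt3 A B (a + γ • (C - a)) x y (z / γ) ∈ X := by
  have hle : z ≤ z / γ := by rw [le_div_iff₀ h0]; nlinarith
  have hs' : 0 < x + y + z / γ := by linarith
  have := hX ha hp (a := 1 - (x + y + z) / (x + y + z / γ)) (b := (x + y + z) / (x + y + z / γ))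
    (by rw [sub_nonneg, div_le_one hs']; linarith) (by positivity) (by ring)
  convert this using 1
  have e : z = γ * (z / γ) := by field_simp
  generalize z / γ = t at *
  simp only [pt3]
  generalize hS : x + y + z = S at *
  generalize hS' : x + y + t = S' at *
  match_scalars
  all_goals field_simp
  all_goals (subst hS hS' e; ring)

/-- A tilt moves the third frame vertex from `C` to `C'` and scales its weight. -/
theorem tilt3 {C C' a a' v : E} {γ γ' : ℝ} (g0 : 0 < γ) (g1 : γ < 1) (g0' : 0 < γ') (g1' : γ' < 1)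
    (e : v = a + γ • (C - a)) (e' : C' = v + γ' • (a' - v)) :
    ∃ μ : ℝ, 0 < μ ∧ ∀ (A B : E) (X Y D' : Set E), Convex ℝ X → Convex ℝ Y → Convex ℝ D' →
      a ∈ X → a' ∈ Y → v ∈ D' → A ∈ D' → B ∈ D' → X ∩ D' ⊆ Y → ∀ x y z : ℝ, 0 ≤ x → 0 ≤ y →
      0 ≤ z → 0 < x + y + z → pt3 A B C x y z ∈ X → pt3 A B C' x y (μ * z) ∈ Y := by
  have hd : 0 < 1 - γ' := by linarith
  refine ⟨1 / (γ * (1 - γ')), by positivity,
    fun A B X Y D' hX hY hD ha ha' hv hA hB hsub x y z hx hy hz hs hp => ?_⟩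
  have h1 := pt3_proj hX g0 g1.le hz hs ha hp
  rw [← e] at h1
  have hz' : 0 ≤ z / γ := by positivity
  have hle : z ≤ z / γ := by rw [le_div_iff₀ g0]; nlinarith
  have hs' : 0 < x + y + z / γ := by linarith
  have h2 := pt3_proj hY hd (by linarith) hz' hs' ha'
    (hsub ⟨h1, pt3_mem hD hA hB hv hx hy hz' hs'⟩)
  convert h2 using 2
  · rw [e']; module
  · field_simp

theorem pt3_swap23 (A B C : E) (x y z : ℝ) : pt3 A B C x y z = pt3 A C B x z y := by
  simp only [pt3, add_right_comm]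

theorem pt3_rot (A B C : E) (x y z : ℝ) : pt3 A B C x y z = pt3 B C A y z x := by
  simp only [pt3]
  rw [show y + z + x = x + y + z by ring]
  congr 1
  abel

theorem pt3_smul (A B C : E) (x y z : ℝ) {s : ℝ} (hs : s ≠ 0) :
    pt3 A B C (s * x) (s * y) (s * z) = pt3 A B C x y z := by
  simp only [pt3, ← mul_add, mul_inv]
  match_scalars <;> field_simp

/-- Change of the third frame vertex to a point given by weights. -/
theorem pt3_third (A B C : E) {x y z i j k : ℝ} (h : i + j + k ≠ 0) :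
    pt3 A B (pt3 A B C i j k) x y (z * (i + j + k)) =
      pt3 A B C (x + z * i) (y + z * j) (z * k) := by
  simp only [pt3]
  rw [show x + z * i + (y + z * j) + z * k = x + y + z * (i + j + k) by ring]
  congr 1
  match_scalars <;> field_simp

theorem pt3_one (A B C : E) : pt3 A B C 0 0 1 = C := by simp [pt3]

/-- Two points on a line through the first vertex have proportional remaining weights. -/
theorem pt3_on_line {A B C : E} (hV : AffineIndependent ℝ ![A, B, C]) {l : Set E}
    (hl : Collinear ℝ l) {x y z x' y' z' : ℝ} (hs : x + y + z ≠ 0) (hs' : x' + y' + z' ≠ 0)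
    (hy : y ≠ 0) (hA : A ∈ l) (h : pt3 A B C x y z ∈ l) (h' : pt3 A B C x' y' z' ∈ l) :
    y' * z = z' * y := by
  obtain ⟨d, hd⟩ := (collinear_iff_of_mem hA).1 hl
  obtain ⟨r, hr⟩ := hd _ h
  obtain ⟨r', hr'⟩ := hd _ h'
  have key : ∀ i j : ℝ, i * r + j * r' = 0 →
      i * y / (x + y + z) + j * y' / (x' + y' + z') = 0 ∧
      i * z / (x + y + z) + j * z' / (x' + y' + z') = 0 := by
    intro i j hij
    have hsum := (affineIndependent_iff.1 hV) Finset.univ
      ![i * x / (x + y + z) + j * x' / (x' + y' + z') - (i + j),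
        i * y / (x + y + z) + j * y' / (x' + y' + z'),
        i * z / (x + y + z) + j * z' / (x' + y' + z')] (by
        simp only [Fin.sum_univ_three, Matrix.cons_val_zero, Matrix.cons_val_one, Matrix.cons_val]
        field_simp
        ring) (by
        have e1 : i • pt3 A B C x y z + j • pt3 A B C x' y' z' - (i + j) • A = 0 := by
          rw [hr, hr']
          simp only [vadd_eq_add]
          have : i • (r • d + A) + j • (r' • d + A) - (i + j) • A = (i * r + j * r') • d := by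
            module
          rw [this, hij, zero_smul]
        simp only [Fin.sum_univ_three, Matrix.cons_val_zero, Matrix.cons_val_one, Matrix.cons_val]
        rw [← e1]
        simp only [pt3]
        match_scalars <;> field_simp <;> ring)
    exact ⟨by simpa using hsum 1 (Finset.mem_univ _), by simpa using hsum 2 (Finset.mem_univ _)⟩
  have hr0 : r ≠ 0 := by
    intro hr0
    have h4 := (key 1 0 (by simp [hr0])).1
    simp [hy, hs] at h4
  obtain ⟨e1, e2⟩ := key r' (-r) (by ring)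
  field_simp at e1 e2
  have : r * (x + y + z) * (y' * z - z' * y) = 0 := by linear_combination y * e2 - z * e1
  have h3 := (mul_eq_zero.1 this).resolve_left (mul_ne_zero hr0 hs)
  linarith

end Pool.Agent.MP_082264_lc.Cl
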