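import Pool.Agent.MP_082264_lc.cl.Cone

/-!
Completeness: a model of the Horn system which omits the origin gives closed convex sets which
satisfy all constraints.
-/

set_option autoImplicit false

namespace Pool.Agent.MP_082264_lc.Cl

open Set Function

variable {ι : Type}

noncomputable def Mv.lam (m : Mv) : ℝ := (m.num : ℝ) / m.den

theorem Mv.den_ok (m : Mv) : 0 < m.den ∧ m.den ≤ 20 ∧ (m.den < m.num) := by
  have hp : ∀ c, 1 < pr c ∧ pr c < 17 := by decide
  cases m with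
  | up c => simp [Mv.den, Mv.num, hp]
  | down c => have := hp c; simp only [Mv.den, Mv.num]; omega
  | wait => simp [Mv.den, Mv.num]

theorem Mv.one_lt (m : Mv) : 1 < m.lam := by
  obtain ⟨h1, -, h2⟩ := m.den_ok
  rw [Mv.lam, one_lt_div (by exact_mod_cast h1)]
  exact_mod_cast h2

/-- The inverse of a tilt on weights. -/
noncomputable def inv : El → ℝ → ℝ → ℝ → ℝ × ℝ × ℝ
  | .A, y, w, z => (y - z, w, z)
  | .B, y, w, z => (y, w, z - w)
  | .R0, y, w, z => (y / 6, w, z)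
  | .R1, y, w, z => (y + w / 6, w / 6, z + w / 6)
  | .R2, y, w, z => (y + z / 3, w, z / 6)
  | .H0 m, y, w, z => (y / m.lam ^ 2, w, z)
  | .H2 m, y, w, z => (y, w, z / m.lam)

/-- The source vertex. -/
noncomputable def cs : El → ℝ × ℝ
  | .A => (0, 1) | .B => (1, 0) | .R0 => (0, 0) | .R1 => (1 / 3, 1 / 3) | .R2 => (0, 1 / 3)
  | .H0 _ => (0, 0) | .H2 _ => (0, 1)

/-- The target vertex. -/
noncomputable def ct : El → ℝ × ℝ
  | .A => (0, 1 / 2) | .B => (1 / 2, 1 / 2) | .R0 => (0, 0) | .R1 => (1, 0) | .R2 => (0, 1)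
  | .H0 _ => (0, 0) | .H2 _ => (0, 1)

/-- The shadow of the second apex. -/
noncomputable def cn : El → ℝ × ℝ
  | .A => (0, -1) | .B => (-1, 2) | .R0 => (0, 0) | .R1 => (3, -1) | .R2 => (0, 3)
  | .H0 _ => (0, 0) | .H2 _ => (0, 1)

/-- The height of the lifted vertex. -/
noncomputable def ht : El → ℝ
  | .R0 => 5 / 7
  | .H0 m => (m.lam ^ 2 - 1) / (m.lam ^ 2 + 1)
  | .H2 m => (m.lam - 1) / (m.lam + 1)
  | _ => 1 / 3

theorem ht_ok (e : El) : 0 < ht e ∧ ht e < 1 := by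
  have key : ∀ x : ℝ, 1 < x → 0 < (x - 1) / (x + 1) ∧ (x - 1) / (x + 1) < 1 := fun x hx =>
    ⟨div_pos (by linarith) (by linarith), by rw [div_lt_one (by linarith)]; linarith⟩
  cases e with
  | H0 m => exact key _ (by nlinarith [m.one_lt])
  | H2 m => exact key _ m.one_lt
  | _ => simp only [ht]; norm_num

/-- The frame weight of the source vertex. -/
def uf : El → E → ℝ
  | .A, p => p 1 | .B, p => p 0 | .R0, p => 1 - p 0 - p 1 | .R1, p => 3 * p 0
  | .R2, p => 3 * p 1 | .H0 _, p => 1 - p 0 - p 1 | .H2 _, p => p 1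

def base (S : ι → Set Gr) : Bs ι → ℝ → ℝ → ℝ → Prop
  | .user j => Kc (mk (S j))
  | .grid => Kc univ
  | .pw => Kc (mk {fun _ => 0})
  | .halt => Kc ∅
  | .v2 => fun y w z => 0 ≤ z ∧ y = 0 ∧ w = 0
  | .ch k => Ray k

def cone (S : ι → Set Gr) : List El → Bs ι → ℝ → ℝ → ℝ → Prop
  | [], b => base S b
  | e :: L, b => fun y w z => cone S L b (inv e y w z).1 (inv e y w z).2.1 (inv e y w z).2.2

theorem gc_cone (S : ι → Set Gr) (L : List El) (b : Bs ι) : GC (cone S L b) := by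
  induction L with
  | nil =>
    cases b with
    | v2 =>
      exact ((gc_half 0 0 1).and ((gc_eq 1 0 0).and (gc_eq 0 1 0))).of_iff
        fun y w z => by simp [cone, base]
    | ch k => exact gc_ray _
    | _ => exact gc_Kc _
  | cons e L ih =>
    refine ⟨by cases e <;> simpa [cone, inv] using ih.1, fun f g h hf hg hh => ih.2 _ _ _ ?_ ?_ ?_⟩
    all_goals
      refine ⟨fun p q s t hst => ?_, ?_⟩
      · simp only [hf.1 p q s t hst, hg.1 p q s t hst, hh.1 p q s t hst]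
        cases e <;> simp only [inv] <;> ring
      · have := hf.2; have := hg.2; have := hh.2
        cases e <;> simp only [inv] <;> fun_prop

/-- The data of the line gadgets. -/
structure LD where
  Z : Ln → Bool → Fl → Set E
  FT : Ln → Fin 4 → Set E
  q1 : Ln → Bool → E
  q3 : Ln → Bool → E
  tt : Ln → Fin 4 → E

noncomputable def ps (G : LD) : Pt → E
  | .V i => !₂[vx i, vy i, 0]
  | .M => !₂[0, 1 / 2, 0]
  | .M' => !₂[1 / 2, 1 / 2, 0]
  | .a e => !₂[(cs e).1, (cs e).2, 1]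
  | .v e => !₂[(cs e).1, (cs e).2, ht e]
  | .a' e => !₂[(cn e).1, (cn e).2, -1]
  | .p1 l s => G.q1 l s
  | .p3 l s => G.q3 l s
  | .tet l k => G.tt l k

noncomputable def rfix (G : LD) : Fix → Set E
  | .pt y => {ps G y}
  | .fl l s j => G.Z l s j
  | .FT l k => G.FT l k
  | .FV i => {p | 0 ≤ - bc i p}
  | .D => {p | p 2 = 0}
  | .D' e => {p | p 2 - ht e * uf e p = 0}
  | .U e j => ![{p | 0 ≤ p 2 - ht e}, {p | 0 ≤ ht e - p 2}, {p | 0 ≤ p 2}, {p | 0 ≤ - p 2}] j
  | .UM j => ![{p | 0 ≤ 1 / 2 - p 1}, {p | 0 ≤ p 1 - 1 / 2}, {p | 0 ≤ 1 / 2 - p 1},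
      {p | 0 ≤ p 1 - 1 / 2}] j

noncomputable def real (G : LD) (S : ι → Set Gr) : Name ι → Set E
  | .fix a => rfix G a
  | .aux .K L b => {p | p 2 = 0} ∩ {p | cone S L b (1 - p 0 - p 1) (p 0) (p 1)}
  | .aux (.X e) L b => {p | cone S L b (1 - p 0 - p 1 - p 2 * (1 - (cs e).1 - (cs e).2))
      (p 0 - p 2 * (cs e).1) (p 1 - p 2 * (cs e).2)}
  | .aux (.Y e) L b => {p | cone S (e :: L) b (1 - p 0 - p 1 + p 2 * (1 - (cn e).1 - (cn e).2))
      (p 0 + p 2 * (cn e).1) (p 1 + p 2 * (cn e).2)}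

variable (G : LD) (S : ι → Set Gr)

theorem real_ok (h1 : ∀ l s j, Convex ℝ (G.Z l s j) ∧ IsClosed (G.Z l s j))
    (h2 : ∀ l k, Convex ℝ (G.FT l k) ∧ IsClosed (G.FT l k)) (n : Name ι) :
    Convex ℝ (real G S n) ∧ IsClosed (real G S n) := by
  have le : ∀ (a b c d : ℝ) (k : E → ℝ), (∀ p, k p = a * p 0 + b * p 1 + c * p 2 + d) →
      Convex ℝ {p | 0 ≤ k p} ∧ IsClosed {p | 0 ≤ k p} := fun a b c d k hk =>
    half_ok (ac_of a b c d k hk).1 (ac_of a b c d k hk).2
  have h0 : AC fun p => p 2 := ac_of 0 0 1 0 _ fun p => by ring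
  rcases n with a | ⟨_ | e | e, L, b⟩
  · cases a with
    | pt y => exact ⟨convex_singleton _, isClosed_singleton⟩
    | fl l s j => exact h1 l s j
    | FT l k => exact h2 l k
    | FV i =>
      fin_cases i
      · exact le 1 1 0 (-1) _ fun p => by simp [bc]; ring
      · exact le (-1) 0 0 0 _ fun p => by simp [bc]
      · exact le 0 (-1) 0 0 _ fun p => by simp [bc]
    | D => exact plane_ok h0.1 h0.2
    | D' e =>
      have hu : AC (uf e) := by
        refine ⟨aff_of _ fun p q s => ?_, ?_⟩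
        · cases e <;> simp [uf] <;> ring
        · cases e <;> unfold uf <;> fun_prop
      have := h0.lin hu hu 1 (-ht e) 0 (fun p => p 2 - ht e * uf e p) fun p => by ring
      exact plane_ok this.1 this.2
    | U e j =>
      fin_cases j
      · exact le 0 0 1 (-ht e) _ fun p => by ring
      · exact le 0 0 (-1) (ht e) _ fun p => by ring
      · exact le 0 0 1 0 _ fun p => by ring
      · exact le 0 0 (-1) 0 _ fun p => by ring
    | UM j =>
      fin_cases j
      · exact le 0 (-1) 0 (1 / 2) _ fun p => by ring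
      · exact le 0 1 0 (-1 / 2) _ fun p => by ring
      · exact le 0 (-1) 0 (1 / 2) _ fun p => by ring
      · exact le 0 1 0 (-1 / 2) _ fun p => by ring
  · exact inter_ok (plane_ok h0.1 h0.2) ((gc_cone S L b).2 _ _ _
      (ac_of (-1) (-1) 0 1 _ fun p => by ring) (ac_of 1 0 0 0 _ fun p => by ring)
      (ac_of 0 1 0 0 _ fun p => by ring))
  · exact (gc_cone S L b).2 _ _ _ (ac_of (-1) (-1) (-(1 - (cs e).1 - (cs e).2)) 1 _ fun p => by ring)
      (ac_of 1 0 (-(cs e).1) 0 _ fun p => by ring) (ac_of 0 1 (-(cs e).2) 0 _ fun p => by ring)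
  · exact (gc_cone S (e :: L) b).2 _ _ _
      (ac_of (-1) (-1) (1 - (cn e).1 - (cn e).2) 1 _ fun p => by ring)
      (ac_of 1 0 (cn e).1 0 _ fun p => by ring) (ac_of 0 1 (cn e).2 0 _ fun p => by ring)

theorem tilt_real (e : El) (L : List El) (b : Bs ι) : Tilt (real G S) e L b := by
  refine ⟨?_, ?_, ?_, ?_, ?_⟩
  · rintro p ⟨h1, h2⟩
    simpa [real, show p 2 = 0 from h1] using h2
  · rintro p rfl
    simpa [real, ps] using (gc_cone S L b).1
  · rintro p ⟨h1, h2⟩
    simp only [real, rfix, mem_ofPred_eq, cone] at h1 h2 ⊢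
    cases e with
    | H0 m =>
      have := m.one_lt
      simp only [inv, cs, cn, ht, uf] at h1 h2 ⊢
      convert h1 using 1
      · field_simp at h2 ⊢
        linarith
      · ring
      · ring
    | H2 m =>
      have := m.one_lt
      simp only [inv, cs, cn, ht, uf] at h1 h2 ⊢
      convert h1 using 1
      · ring
      · ring
      · field_simp at h2 ⊢
        linarith
    | _ =>
      simp only [inv, cs, cn, ht, uf] at h1 h2 ⊢
      convert h1 using 1 <;> linarith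
  · rintro p rfl
    simpa [real, ps] using (gc_cone S (e :: L) b).1
  · rintro p ⟨h1, h2⟩
    refine ⟨h2, ?_⟩
    simpa [real, show p 2 = 0 from h2] using h1

theorem ext3 {p q : E} (h0 : p 0 = q 0) (h1 : p 1 = q 1) (h2 : p 2 = q 2) : p = q := by
  ext i
  fin_cases i <;> assumption

theorem src_mem (e : El) {p : E} (h : p ∈ real G S (src e)) :
    p 0 = (cs e).1 ∧ p 1 = (cs e).2 ∧ p 2 = 0 := by
  cases e with
  | R1 =>
    obtain ⟨h1, -, h2, h3⟩ := h
    simp only [cs, Nat.cast_one] at h2 h3 ⊢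
    exact ⟨by linarith, by linarith, h1⟩
  | R2 =>
    obtain ⟨h1, -, h2, h3⟩ := h
    simp only [cs, inv] at h2 h3 ⊢
    exact ⟨by linarith, by linarith, h1⟩
  | _ =>
    obtain rfl := h
    simp [ps, cs, vx, vy]

theorem tgt_mem (e : El) {p : E} (h : p ∈ real G S (tgt e)) :
    p 0 = (ct e).1 ∧ p 1 = (ct e).2 ∧ p 2 = 0 := by
  cases e <;> obtain rfl := h <;> simp [ps, ct, vx, vy]

/-- The point of the integer `k`. -/
noncomputable def pk (k : ℝ) : E := !₂[1 / (k ^ 2 + k + 1), k / (k ^ 2 + k + 1), 0]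

noncomputable def lx : Ln → E
  | .c0 _ => !₂[0, 0, 0]
  | .c2 _ => !₂[0, 1, 0]
  | .edge => !₂[0, 0, 0]
  | .t e false => !₂[(cs e).1, (cs e).2, 0]
  | .t e true => !₂[(cs e).1, (cs e).2, ht e]

noncomputable def ly : Ln → E
  | .c0 k => pk k.1
  | .c2 k => pk k.1
  | .edge => !₂[0, 1, 0]
  | .t e false => !₂[(cs e).1, (cs e).2, 1]
  | .t e true => !₂[(cn e).1, (cn e).2, -1]

variable {G} (hG : ∀ l s (t : ℝ), lx l + t • (ly l - lx l) ∈ G.Z l s .C)
include hG

theorem onl {n : Name ι} {l : Ln} (h : ∀ p ∈ real G S n, ∃ t : ℝ, p = lx l + t • (ly l - lx l)) :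
    OnL (real G S) n l := by
  constructor <;> intro p hp <;> obtain ⟨t, rfl⟩ := h p hp <;> exact hG _ _ _

theorem on_c0 {n : Name ι} {k : Fin 18} (h : ∀ p ∈ real G S n, p 2 = 0 ∧ p 1 = k.1 * p 0) :
    OnL (real G S) n (.c0 k) := by
  refine onl S hG fun p hp => ⟨p 0 * ((k.1 : ℝ) ^ 2 + k.1 + 1), ?_⟩
  obtain ⟨h1, h2⟩ := h p hp
  have : (k.1 : ℝ) ^ 2 + k.1 + 1 ≠ 0 := by positivity
  refine ext3 ?_ ?_ ?_ <;> simp [lx, ly, pk, h1, h2] <;> field_simp

theorem on_c2 {n : Name ι} {k : Fin 18}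
    (h : ∀ p ∈ real G S n, p 2 = 0 ∧ 1 - p 0 - p 1 = (k.1 : ℝ) ^ 2 * p 0) :
    OnL (real G S) n (.c2 k) := by
  refine onl S hG fun p hp => ⟨p 0 * ((k.1 : ℝ) ^ 2 + k.1 + 1), ?_⟩
  obtain ⟨h1, h2⟩ := h p hp
  have : (k.1 : ℝ) ^ 2 + k.1 + 1 ≠ 0 := by positivity
  refine ext3 ?_ ?_ ?_ <;> simp [lx, ly, pk, h1]
  · field_simp
  · field_simp
    linarith

theorem tilt_cons : TiltCons (real G S) := by
  have vert : ∀ (e : El) (n : Name ι), (∀ p ∈ real G S n, p 0 = (cs e).1 ∧ p 1 = (cs e).2) →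
      OnL (real G S) n (.t e false) := fun e n h => onl S hG fun p hp =>
    ⟨p 2, ext3 (by simp [lx, ly, h p hp]) (by simp [lx, ly, h p hp]) (by simp [lx, ly])⟩
  have edge : ∀ (n : Name ι), (∀ p ∈ real G S n, p 0 = 0 ∧ p 2 = 0) →
      OnL (real G S) n .edge := fun n h => onl S hG fun p hp =>
    ⟨p 1, ext3 (by simp [lx, ly, h p hp]) (by simp [lx, ly]) (by simp [lx, ly, h p hp])⟩
  constructor
  · intro i j hj
    fin_cases i <;> fin_cases j <;> simp [real, rfix, ps, bc, vx, vy] at hj ⊢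
  · intro p h
    have h0 := h 0; have h1 := h 1; have h2 := h 2
    simp [real, rfix, bc] at h0 h1 h2
    linarith
  · intro i; simp [real, rfix, ps]
  · exact fun e => vert e _ (by rintro p rfl; simp [ps])
  · exact fun e => vert e _ (by rintro p rfl; simp [ps])
  · exact fun e => vert e _ fun p hp => ⟨(src_mem G S e hp).1, (src_mem G S e hp).2.1⟩
  · exact fun e => onl S hG (by rintro p rfl; exact ⟨0, by simp [lx, ps]⟩)
  · refine fun e => onl S hG fun p hp => ⟨ht e / (1 + ht e), ?_⟩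
    obtain ⟨h1, h2, h3⟩ := tgt_mem G S e hp
    have := (ht_ok e).1
    refine ext3 ?_ ?_ ?_
    · cases e <;> simp [lx, ly, h1, cs, ct, cn, ht] <;> norm_num
    · cases e <;> simp [lx, ly, h2, cs, ct, cn, ht] <;> norm_num
    · simp [lx, ly, h3]
      field_simp
      ring
  · exact fun e => onl S hG (by rintro p rfl; exact ⟨1, by simp [ly, ps]⟩)
  · intro e
    obtain ⟨h0, h1⟩ := ht_ok e
    refine ⟨?_, ?_, disjoint_left.2 fun p hp => ?_, ?_, fun p hp => ?_, ?_⟩
    · simp [real, rfix, ps, h1.le]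
    · simp [real, rfix, ps]
    · simp [real, rfix, (src_mem G S e hp).2.2, h0]
    · simp [real, rfix, ps]
    · simp [real, rfix, (src_mem G S e hp).2.2, h0.le]
    · simp [real, rfix, ps, h1]
  · intro e
    obtain ⟨h0, h1⟩ := ht_ok e
    refine ⟨?_, fun p hp => ?_, ?_, fun p hp => ?_, ?_, ?_⟩
    · simp [real, rfix, ps, h0.le]
    · simp [real, rfix, (tgt_mem G S e hp).2.2]
    · simp [real, rfix, ps]
    · simp [real, rfix, (tgt_mem G S e hp).2.2]
    · simp [real, rfix, ps]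
    · simp [real, rfix, ps, h0]
  · rintro e p rfl
    cases e <;> simp [real, rfix, ps, uf, cs]
  · intro e p hp
    cases e <;> obtain rfl := hp <;> simp [real, rfix, ps, uf, vx, vy]
  · intro e p hp
    cases e with
    | R1 =>
      obtain ⟨h1, h2, -⟩ := src_mem G S .R2 hp
      obtain ⟨h3, -⟩ := hp
      simp [real, rfix, uf, h1, cs, show p 2 = 0 from h3]
    | _ => obtain rfl := hp; simp [real, rfix, ps, uf, vx, vy]
  · exact edge _ (by rintro p rfl; simp [ps, vx])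
  · exact edge _ (by rintro p rfl; simp [ps])
  · exact edge _ (by rintro p rfl; simp [ps, vx])
  · simp [Btw, real, rfix, ps, vy]
    norm_num
  · exact on_c2 S hG (by rintro p rfl; simp [ps, vx, vy])
  · exact on_c2 S hG (by rintro p rfl; simp [ps]; norm_num)
  · simp [Btw, real, rfix, ps, vy]
    norm_num

omit hG in
theorem dil_real (m : Mv) {A B : Set ℤ} {b d : Bs ι} (hb : base S b = Kc A) (hd : base S d = Kc B)
    (h : ∀ t ∈ A, ∀ u : ℤ, m.den * u = m.num * t → u ∈ B) : Dil (real G S) m b d := by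
  refine ⟨tilt_real _ _ _ _ _, tilt_real _ _ _ _ _, ?_⟩
  rintro p ⟨⟨h1, h2⟩, -, h3⟩
  refine ⟨h1, ?_⟩
  simp only [cone, inv, hb, hd, mem_ofPred_eq] at h2 ⊢
  exact Kc.dil m.den_ok.1 m.den_ok.2.1 m.den_ok.2.2 h h2 h3

theorem map_cons : MapCons (real G S) := by
  have tl := tilt_real G S
  constructor
  · exact fun k => on_c0 S hG (by rintro p rfl; simp [ps, vx, vy])
  · exact fun k => on_c2 S hG (by rintro p rfl; simp [ps, vx, vy])
  · exact fun k => on_c0 S hG fun p hp => ⟨hp.1, hp.2.2.2⟩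
  · exact fun k => on_c2 S hG fun p hp => ⟨hp.1, hp.2.2.1⟩
  · rintro p rfl
    simp [real, ps, cone, base, Ray, vx, vy]
  · refine fun k => ⟨tl _ _ _, tl _ _ _, tl _ _ _, ?_⟩
    rintro p ⟨h1, h2, h3, h4⟩
    simp only [inv] at h2 h3 h4
    refine ⟨h1, h2, ?_, ?_⟩ <;> push_cast
    · linear_combination h3 + 2 * h4
    · linear_combination h4
  · exact on_c0 S hG fun p hp => ⟨hp.1, hp.2.2.2⟩
  · exact tl _ _ _
  · exact on_c2 S hG fun p hp => ⟨hp.1, hp.2.2.1⟩
  · rintro p rfl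
    simp [real, ps, cone, base, vx, vy]
  · exact tl _ _ _
  · exact tl _ _ _
  · refine ⟨tl _ _ _, tl _ _ _, tl _ _ _, ?_⟩
    rintro p ⟨h1, h2, h3, h4⟩
    simp only [inv] at h2 h3 h4
    push_cast at h3 h4
    refine ⟨h1, by linarith, ?_, ?_⟩ <;> push_cast <;> linarith
  · exact fun m => tl _ _ _
  · exact fun m => tl _ _ _
  · rintro m p ⟨h1, h2, h3, h4⟩
    simp only [inv, Mv.lam] at h2 h3 h4
    have d0 : (0 : ℝ) < m.den := by exact_mod_cast m.den_ok.1
    have n0 : (0 : ℝ) < m.num := by exact_mod_cast m.den_ok.1.trans m.den_ok.2.2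
    refine ⟨h1, h2, ?_, ?_⟩
    · field_simp at h3
      linarith
    · field_simp at h4
      linarith
  · rintro p rfl
    refine ⟨by simp [ps], ray_Kc (k := 0) (mem_univ _) ?_⟩
    simp [Ray, ps, vx, vy]
  · refine ⟨tl _ _ _, tl _ _ _, tl _ _ _, ?_⟩
    rintro p ⟨h1, h2⟩
    refine ⟨h1, Kc.up ?_⟩
    simp only [cone, inv, base, mem_ofPred_eq] at h2
    convert h2 using 1
    ring
  · rintro p ⟨h1, h2⟩
    exact ⟨h1, ray_Kc (one_mem_mk (mem_singleton _)) (by simpa [cone, base] using h2)⟩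
  · exact dil_real S .wait rfl rfl (mk_wait _)
  · refine ⟨tl _ _ _, tl _ _ _, tl _ _ _, ?_⟩
    rintro p ⟨h1, h2⟩
    refine ⟨h1, Kc.down ?_⟩
    simp only [cone, inv, base, mem_ofPred_eq] at h2
    convert h2 using 1 <;> ring
  · refine disjoint_left.2 ?_
    rintro p rfl ⟨-, h⟩
    have := h.2.2 0 (notMem_empty _)
    simp [chord, ps, vx, vy] at this
    linarith

omit hG in
theorem complete : CompleteStmt := by
  intro ι R z S hS hz
  obtain ⟨Z, FT, q1, q3, tt, h1, h2, h3, h4⟩ := exists_lines lx ly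
  let G : LD := ⟨Z, FT, q1, q3, tt⟩
  refine ⟨real G S, fun n => (real_ok G S h1 h2 n).1, fun n => (real_ok G S h1 h2 n).2,
    h4 _ _ (fun _ _ _ => rfl) (fun _ _ => rfl) (fun _ _ => rfl) (fun _ _ => rfl) (fun _ _ => rfl),
    tilt_cons S h3, map_cons S h3, fun r hr => ?_, ?_, fun y => singleton_nonempty _⟩
  · have hr' := hS r hr
    cases r with
    | base j =>
      rintro p ⟨a1, a2⟩
      exact ⟨a1, ray_Kc (one_mem_mk hr') (by simpa [cone, base] using a2)⟩
    | up c i j => exact dil_real S (.up c) rfl rfl (mk_up hr')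
    | down c i j => exact dil_real S (.down c) rfl rfl (mk_down hr')
    | inter i l j =>
      refine ⟨dil_real S .wait rfl rfl (mk_wait _), dil_real S .wait rfl rfl (mk_wait _), ?_⟩
      rintro p ⟨⟨a1, a2⟩, -, a3⟩
      exact ⟨a1, Kc.inter (mk_inter hr') a2 a3⟩
  · rintro p ⟨⟨a1, a2⟩, -, a3⟩
    refine ⟨a1, Kc.inter ?_ a2 a3⟩
    rintro _ ⟨⟨v, hv, k, rfl⟩, _, rfl, k', e⟩
    exact hz (tk_inj (Int.natCast_inj.1 e) ▸ hv)

end Pool.Agent.MP_082264_lc.Cl
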