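import Mathlib.Analysis.InnerProductSpace.Projection.Reflection
import Pool.Agent.MP_082264_lc.cl.Defs

/-!
Closed convex sets which satisfy the line constraints, for any prescribed lines.
-/

set_option autoImplicit false

namespace Pool.Agent.MP_082264_lc.Cl

open Set Function

/-- The sets of a flat gadget in the plane `f = 0`. -/
def flSet (f g : E → ℝ) : Fl → Set E
  | .C => {p | f p = 0} ∩ {p | 0 ≤ g p + 1}
  | .A => {p | 0 ≤ f p}
  | .B => {p | 0 ≤ - f p}
  | .P1 => {p | 0 ≤ f p} ∩ {p | 0 ≤ g p + 1 + f p}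
  | .P3 => {p | 0 ≤ - f p} ∩ {p | 0 ≤ g p + 1 - f p}
  | .T => {p | 0 ≤ - g p - 2}

theorem Aff.comb {f g : E → ℝ} (hf : Aff f) (hg : Aff g) (a b c : ℝ) :
    Aff (fun p => a * f p + b * g p + c) := by
  intro p q s t hst
  simp only [hf p q s t hst, hg p q s t hst]
  linear_combination (-c) * hst

theorem half_ok {f : E → ℝ} (hf : Aff f) (cf : Continuous f) :
    Convex ℝ {p | 0 ≤ f p} ∧ IsClosed {p | 0 ≤ f p} :=
  ⟨conv_le hf, isClosed_le continuous_const cf⟩

theorem plane_ok {f : E → ℝ} (hf : Aff f) (cf : Continuous f) :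
    Convex ℝ {p | f p = 0} ∧ IsClosed {p | f p = 0} :=
  ⟨conv_eq hf, isClosed_eq cf continuous_const⟩

theorem inter_ok {s t : Set E} (hs : Convex ℝ s ∧ IsClosed s) (ht : Convex ℝ t ∧ IsClosed t) :
    Convex ℝ (s ∩ t) ∧ IsClosed (s ∩ t) :=
  ⟨hs.1.inter ht.1, hs.2.inter ht.2⟩

theorem flSet_ok {f g : E → ℝ} (hf : Aff f) (hg : Aff g) (cf : Continuous f) (cg : Continuous g)
    (j : Fl) : Convex ℝ (flSet f g j) ∧ IsClosed (flSet f g j) := by
  have H : ∀ (a b c : ℝ) (k : E → ℝ), (∀ p, k p = a * f p + b * g p + c) →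
      Convex ℝ {p | 0 ≤ k p} ∧ IsClosed {p | 0 ≤ k p} := by
    intro a b c k hk
    obtain rfl : k = fun p => a * f p + b * g p + c := funext hk
    exact half_ok (Aff.comb hf hg a b c) (by fun_prop)
  cases j with
  | C => exact inter_ok (plane_ok hf cf) (H 0 1 1 _ fun p => by ring)
  | A => exact half_ok hf cf
  | B => exact H (-1) 0 0 _ fun p => by ring
  | P1 => exact inter_ok (half_ok hf cf) (H 1 1 1 _ fun p => by ring)
  | P3 => exact inter_ok (H (-1) 0 0 _ fun p => by ring) (H (-1) 1 1 _ fun p => by ring)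
  | T => exact H 0 (-1) (-2) _ fun p => by ring

/-- Affine coordinates whose third axis runs through two given points. -/
theorem exists_coords (x y : E) : ∃ φ : E → E, Surjective φ ∧ Continuous φ ∧
    (∀ i, Aff fun p => φ p i) ∧ ∀ t : ℝ, φ (x + t • (y - x)) 0 = 0 ∧ φ (x + t • (y - x)) 1 = 0 := by
  have hn : ‖y - x‖ = ‖(EuclideanSpace.single 2 ‖y - x‖ : E)‖ := by simp
  have he := Submodule.reflection_sub hn
  set e := Submodule.reflection (ℝ ∙ (y - x - EuclideanSpace.single 2 ‖y - x‖))ᗮ
  refine ⟨fun p => e (p - x), fun c => ⟨x + e.symm c, by simp⟩, by fun_prop, fun i => ?_,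
    fun t => ?_⟩
  · intro p q a b hab
    have : a • p + b • q - x = a • (p - x) + b • (q - x) := by
      obtain rfl : b = 1 - a := by linarith
      module
    simp only [this, map_add, map_smul, PiLp.add_apply, PiLp.smul_apply, smul_eq_mul]
  · simp [he]

theorem exists_lines (x y : Ln → E) :
    ∃ (Z : Ln → Bool → Fl → Set E) (FT : Ln → Fin 4 → Set E) (q1 q3 : Ln → Bool → E)
      (tt : Ln → Fin 4 → E),
      (∀ l s j, Convex ℝ (Z l s j) ∧ IsClosed (Z l s j)) ∧
      (∀ l k, Convex ℝ (FT l k) ∧ IsClosed (FT l k)) ∧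
      (∀ l s (t : ℝ), x l + t • (y l - x l) ∈ Z l s .C) ∧
      ∀ (ι : Type) (X : Name ι → Set E), (∀ l s j, X (F l s j) = Z l s j) →
        (∀ l k, X (.fix (.FT l k)) = FT l k) → (∀ l s, X (P (.p1 l s)) = {q1 l s}) →
        (∀ l s, X (P (.p3 l s)) = {q3 l s}) → (∀ l k, X (P (.tet l k)) = {tt l k}) →
        LineCons X := by
  choose φ hs hc ha hl using fun l => exists_coords (x l) (y l)
  choose ψ hψ using hs
  have hci : ∀ l i, Continuous fun p => φ l p i := fun l i => by
    have := hc l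
    fun_prop
  refine ⟨fun l s => cond s (flSet (fun p => φ l p 1) (fun p => φ l p 0))
      (flSet (fun p => φ l p 0) (fun p => φ l p 1)),
    fun l => ![{p | 0 ≤ φ l p 0 + φ l p 1 + φ l p 2 - 1}, {p | 0 ≤ - φ l p 2},
      {p | 0 ≤ - φ l p 1}, {p | 0 ≤ - φ l p 0}],
    fun l s => ψ l (cond s !₂[-2, 1, 0] !₂[1, -2, 0]),
    fun l s => ψ l (cond s !₂[-2, -1, 0] !₂[-1, -2, 0]),
    fun l k => ψ l (![!₂[0, 0, 0], !₂[0, 0, 1], !₂[0, 1, 0], !₂[1, 0, 0]] k),
    fun l s j => ?_, fun l k => ?_, fun l s t => ?_, fun ι X h1 h2 h3 h4 h5 => ?_⟩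
  · cases s
    · exact flSet_ok (ha l 0) (ha l 1) (hci l 0) (hci l 1) j
    · exact flSet_ok (ha l 1) (ha l 0) (hci l 1) (hci l 0) j
  · have hneg : ∀ i, Convex ℝ {p | 0 ≤ - φ l p i} ∧ IsClosed {p | 0 ≤ - φ l p i} := fun i =>
      half_ok (fun p q a b hab => by
        have := ha l i p q a b hab
        simp only at this
        rw [this]
        ring) (hci l i).neg
    fin_cases k
    · refine half_ok (fun p q a b hab => ?_)
        ((((hci l 0).add (hci l 1)).add (hci l 2)).sub continuous_const)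
      have e0 := ha l 0 p q a b hab
      have e1 := ha l 1 p q a b hab
      have e2 := ha l 2 p q a b hab
      simp only at e0 e1 e2
      rw [e0, e1, e2]
      linear_combination hab
    · exact hneg 2
    · exact hneg 1
    · exact hneg 0
  · have := hl l t
    cases s <;> simp [flSet, this.1, this.2]
  · constructor
    · intro l s
      simp only [Flat, h1, h3, h4, singleton_subset_iff]
      cases s <;>
      · simp only [cond, flSet, mem_inter_iff, mem_ofPred_eq, hψ, subset_def, mem_union,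
          disjoint_left]
        refine ⟨fun p _ => ?_, by norm_num, by norm_num, by norm_num, by norm_num, by norm_num,
          by norm_num, fun p hp => hp.1.ge, fun p hp => ?_, fun p hp => ?_, fun p hp => ?_,
          fun p hp => ?_, fun p hp => ?_, fun p hp hq => ?_⟩
        · exact (le_total 0 _).imp_right neg_nonneg.2
        · linarith [hp.1]
        · exact ⟨hp.1.ge, by linarith [hp.1, hp.2]⟩
        · exact ⟨by linarith [hp.1], by linarith [hp.1, hp.2]⟩
        · exact ⟨by linarith [hp.2.1, hp.2.2], by linarith [hp.1.2, hp.2.1, hp.2.2]⟩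
        · exact ⟨by linarith [hp.2.1, hp.2.2], by linarith [hp.1.2, hp.2.1, hp.2.2]⟩
        · linarith [hq.2]
    · intro l k
      rw [h5, h1, singleton_subset_iff]
      fin_cases k <;> simp [flSet, hψ]
    · intro l k j hj
      rw [h5, h2, singleton_subset_iff]
      fin_cases k <;> fin_cases j <;> simp [hψ] at hj ⊢
    · intro l p h
      have a0 := h 0; have a1 := h 1; have a2 := h 2; have a3 := h 3
      rw [h2] at a0 a1 a2 a3
      simp at a0 a1 a2 a3
      linarith

end Pool.Agent.MP_082264_lc.Cl
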