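import Pool.Agent.MP_082264_lc.cl.Defs
import Pool.Agent.MP_082264_lc.cl.Geo

/-!
Soundness: a closed convex solution of the constraints gives a model of the Horn system.
-/

set_option autoImplicit false

namespace Pool.Agent.MP_082264_lc.Cl

open Set Function

variable {ι : Type} {X : Name ι → Set E}

theorem line_collinear (hc : ∀ n, Convex ℝ (X n)) (hcl : ∀ n, IsClosed (X n)) (hL : LineCons X)
    (y : Pt → E) (hy : ∀ p, y p ∈ X (P p)) (l : Ln) :
    Collinear ℝ (X (F l false .C) ∩ X (F l true .C)) := by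
  have hf : ∀ s, Module.finrank ℝ (vectorSpan ℝ (X (F l s .C))) ≤ 2 := fun s => by
    obtain ⟨a1, a2, a3, a4, a5, a6, a7, a8, a9, a10, a11, a12, a13, a14⟩ := hL.flat l s
    exact flat_rank (hc _) (hc _) (hc _) (hc _) (hc _) (hc _) (hcl _) (hcl _) (hcl _) a1
      (a2 (hy _)) (a3 (hy _)) (a4 (hy _)) (a5 (hy _)) (a6 (hy _)) (a7 (hy _)) a8 a9 a10 a11
      a12 a13 a14
  refine collinear_inter (hf _) (hf _) (fun k => y (.tet l k))
    (affineIndependent_of_facets _ (fun k => X (.fix (.FT l k))) (fun _ => hc _)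
      (fun k j hj => hL.fac l k j hj (hy _)) (hL.facE l)) fun k => ?_
  have := hL.tet l k (hy _)
  by_cases hk : k = 3
  · right; simpa [hk] using this
  · left; simpa [hk] using this

theorem pt3_two (A B C : E) {x y z i j k i' j' k' : ℝ} (h : i + j + k ≠ 0)
    (h' : i' + j' + k' ≠ 0) :
    pt3 A (pt3 A B C i j k) (pt3 A B C i' j' k') x (y * (i + j + k)) (z * (i' + j' + k')) =
      pt3 A B C (x + y * i + z * i') (y * j + z * j') (y * k + z * k') := by
  simp only [pt3]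
  rw [show x + y * i + z * i' + (y * j + z * j') + (y * k + z * k') =
    x + y * (i + j + k) + z * (i' + j' + k') by ring]
  congr 1
  match_scalars <;> field_simp

/-- The integer points: a sequence of points which the gadgets move as intended. -/
theorem exists_points (hc : ∀ n, Convex ℝ (X n)) (hcl : ∀ n, IsClosed (X n)) (hL : LineCons X)
    (hT : TiltCons X) (hM : MapCons X) (hne : ∀ p, (X (P p)).Nonempty) :
    ∃ W : ℕ → E, W 0 ∈ X (P (.V 1)) ∧ W 1 ∈ X (K [] (.ch 1)) ∧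
      (∀ b d n, Tau X b d → W n ∈ X (K [] b) → W (n + 1) ∈ X (K [] d)) ∧
      (∀ b d n, Back X b d → W (n + 1) ∈ X (K [] b) → W n ∈ X (K [] d)) ∧
      ∀ (m : Mv) b n n', Tilt X (.H2 m) [] b → Tilt X (.H0 m) [.H2 m] b →
        m.den * n' = m.num * n → W n ∈ X (K [] b) → W n' ∈ X (K [.H0 m, .H2 m] b) := by
  choose y hy using hne
  have hcol := line_collinear hc hcl hL y hy
  have hon : ∀ {n l x}, OnL X n l → x ∈ X n → x ∈ X (F l false .C) ∩ X (F l true .C) :=
    fun h hx => ⟨h.1 hx, h.2 hx⟩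
  have hbt : ∀ {n₁ n₂ n₃ u u' : Name ι} {l : Ln} {x₁ x₂ x₃ : E},
      Btw X n₁ n₂ n₃ u u' → OnL X n₁ l → OnL X n₂ l → OnL X n₃ l → x₁ ∈ X n₁ → x₂ ∈ X n₂ →
      x₃ ∈ X n₃ → ∃ γ : ℝ, 0 < γ ∧ γ < 1 ∧ x₂ = x₁ + γ • (x₃ - x₁) := by
    rintro n₁ n₂ n₃ u u' l x₁ x₂ x₃ ⟨b1, b2, b3, b4, b5, b6⟩ o1 o2 o3 h1 h2 h3
    exact between_of_gadget (hcol l) (hc u) (hc u') (hon o1 h1) (hon o2 h2) (hon o3 h3) (b1 h1)
      (b2 h2) (disjoint_left.1 b3 h3) (b4 h2) (b5 h3) (disjoint_left.1 b6 h1)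
  obtain ⟨A, hA⟩ : ∃ A, A = y (.V 0) := ⟨_, rfl⟩
  obtain ⟨B, hB⟩ : ∃ B, B = y (.V 1) := ⟨_, rfl⟩
  obtain ⟨C, hC⟩ : ∃ C, C = y (.V 2) := ⟨_, rfl⟩
  have mA : A ∈ X (P (.V 0)) := hA ▸ hy _
  have mB : B ∈ X (P (.V 1)) := hB ▸ hy _
  have mC : C ∈ X (P (.V 2)) := hC ▸ hy _
  have hV : AffineIndependent ℝ ![A, B, C] := by
    have := affineIndependent_of_facets (fun i => y (.V i)) (fun i => X (.fix (.FV i)))
      (fun _ => hc _) (fun i j hj => hT.fv i j hj (hy _)) hT.fvE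
    convert this using 1
    funext i
    fin_cases i <;> simp [hA, hB, hC]
  have hV' : AffineIndependent ℝ ![C, B, A] := by
    convert hV.comp_embedding (Equiv.swap (0 : Fin 3) 2).toEmbedding using 1
    funext i
    fin_cases i <;> simp [Equiv.swap_apply_def]
  have rev : ∀ x w z : ℝ, pt3 A B C x w z = pt3 C B A z w x := fun x w z => by
    rw [pt3_rot, pt3_rot, pt3_swap23]
  have on0 : ∀ {k n n' x w z x' w' z'}, OnL X n (.c0 k) → OnL X n' (.c0 k) → 0 ≤ x → 0 < w →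
      0 ≤ z → 0 ≤ x' → 0 < w' → 0 ≤ z' → pt3 A B C x w z ∈ X n → pt3 A B C x' w' z' ∈ X n' →
      w' * z = z' * w := by
    intro k n n' x w z x' w' z' o o' _ hw _ _ _ _ h h'
    exact pt3_on_line hV (hcol _) (by positivity) (by positivity) hw.ne' (hon (hM.l0 k) mA)
      (hon o h) (hon o' h')
  have on2 : ∀ {k n n' x w z x' w' z'}, OnL X n (.c2 k) → OnL X n' (.c2 k) → 0 ≤ x → 0 < w →
      0 ≤ z → 0 ≤ x' → 0 < w' → 0 ≤ z' → pt3 A B C x w z ∈ X n → pt3 A B C x' w' z' ∈ X n' →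
      w' * x = x' * w := by
    intro k n n' x w z x' w' z' o o' _ hw _ _ _ _ h h'
    rw [rev] at h h'
    exact pt3_on_line hV' (hcol _) (by positivity) (by positivity) hw.ne' (hon (hM.l2 k) mC)
      (hon o h) (hon o' h')
  have dA := hT.pl 0 mA
  have dB := hT.pl 1 mB
  have dC := hT.pl 2 mC
  have htilt : ∀ e c c' p q, c ∈ X (src e) → c' ∈ X (tgt e) → p ∈ X (f1 e) → q ∈ X (f2 e) →
      c' ∈ X (.fix .D) → p ∈ X (.fix .D) → q ∈ X (.fix .D) →
      ∃ μ : ℝ, 0 < μ ∧ ∀ L b, Tilt X e L b → ∀ x w z : ℝ, 0 ≤ x → 0 ≤ w → 0 ≤ z → 0 < x + w + z →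
        pt3 p q c x w z ∈ X (K L b) → pt3 p q c' x w (μ * z) ∈ X (K (e :: L) b) := by
    intro e c c' p q h1 h2 h3 h4 d1 d2 d3
    obtain ⟨γ, g0, g1, e1⟩ := hbt (hT.bt1 e) (hT.on1 e) (hT.on2 e) (hT.on3 e) (hy _) (hy _) h1
    obtain ⟨γ', g0', g1', e2⟩ := hbt (hT.bt2 e) (hT.on4 e) (hT.on5 e) (hT.on6 e) (hy _) h2 (hy _)
    obtain ⟨μ, hμ, H⟩ := tilt3 g0 g1 g0' g1' e1 e2
    refine ⟨μ, hμ, ?_⟩
    rintro L b ⟨t1, t2, t3, t4, t5⟩ x w z hx hw hz hs hp
    refine t5 ⟨H p q _ _ _ (hc _) (hc _) (hc _) (t2 (hy _)) (t4 (hy _)) (hT.d1 e (hy _))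
      (hT.d2 e h3) (hT.d3 e h4) t3 x w z hx hw hz hs (t1 hp),
      pt3_mem (hc _) d2 d3 d1 hx hw (by positivity) ?_⟩
    rcases hz.eq_or_lt with rfl | hz'
    · simpa using hs
    · positivity
  obtain ⟨α, β, α0, β0, hA'⟩ : ∃ α β : ℝ, 0 < α ∧ 0 < β ∧ ∀ L b, Tilt X .A L b → ∀ x w z : ℝ,
      0 ≤ x → 0 ≤ w → 0 ≤ z → 0 < x + w + z → pt3 A B C x w z ∈ X (K L b) →
      pt3 A B C (x + α * z) w (β * z) ∈ X (K (.A :: L) b) := by
    obtain ⟨s, s0, s1, e⟩ := hbt hT.e4 hT.e1 hT.e2 hT.e3 mA (hy _) mC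
    have s2 : 0 < 1 - s := by linarith
    have e' : y .M = pt3 A B C (1 - s) 0 s := by rw [e]; simp only [pt3]; norm_num; module
    obtain ⟨μ, hμ, H⟩ := htilt .A C (y .M) A B mC (hy _) mA mB
      (e' ▸ pt3_mem (hc _) dA dB dC s2.le le_rfl s0.le (by linarith)) dA dB
    refine ⟨μ * (1 - s), μ * s, by positivity, by positivity, fun L b t x w z hx hw hz hs hp => ?_⟩
    have := H L b t x w z hx hw hz hs hp
    rw [e', show μ * z = μ * z * (1 - s + 0 + s) by ring, pt3_third _ _ _ (by linarith)] at this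
    convert this using 2 <;> ring
  obtain ⟨ε, β', ε0, β0', hB'⟩ : ∃ ε β' : ℝ, 0 < ε ∧ 0 < β' ∧ ∀ L b, Tilt X .B L b →
      ∀ x w z : ℝ, 0 ≤ x → 0 ≤ w → 0 ≤ z → 0 < x + w + z → pt3 A B C x w z ∈ X (K L b) →
      pt3 A B C x (β' * w) (z + ε * w) ∈ X (K (.B :: L) b) := by
    obtain ⟨s, s0, s1, e⟩ := hbt hT.e7 hT.e5 hT.e6 (hM.l2 0) mB (hy _) mC
    have s2 : 0 < 1 - s := by linarith
    have e' : y .M' = pt3 A C B 0 s (1 - s) := by rw [e]; simp only [pt3]; norm_num; module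
    obtain ⟨μ, hμ, H⟩ := htilt .B B (y .M') A C mB (hy _) mA mC
      (e' ▸ pt3_mem (hc _) dA dC dB le_rfl s0.le s2.le (by linarith)) dA dC
    refine ⟨μ * s, μ * (1 - s), by positivity, by positivity, fun L b t x w z hx hw hz hs hp => ?_⟩
    rw [pt3_swap23] at hp ⊢
    have := H L b t x z w hx hz hw (by linarith) hp
    rw [e', show μ * w = μ * w * (0 + s + (1 - s)) by ring, pt3_third _ _ _ (by linarith)] at this
    convert this using 2 <;> ring
  have b0 : pt3 A B C 0 1 0 = B := by simp [pt3]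
  have c0 : pt3 A B C 0 0 1 = C := pt3_one _ _ _
  have o1 : pt3 A B C (α * ε) β' (β * ε) ∈ X (K [] (.ch 1)) := by
    obtain ⟨t1, t2, t3, t4⟩ := hM.chs 0
    have h1 := hA' _ _ t1 0 1 0 le_rfl zero_le_one le_rfl (by norm_num) (by rw [b0]; exact hM.ch0 mB)
    simp only [mul_zero, add_zero] at h1
    have h2 := hB' _ _ t2 0 1 0 le_rfl zero_le_one le_rfl (by norm_num) h1
    simp only [mul_one, zero_add] at h2
    have h3 := hA' _ _ t3 0 β' ε le_rfl β0'.le ε0.le (by positivity) h2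
    simpa using t4 h3
  obtain rfl : β = 1 := by
    have h1 := hA' _ _ (hM.chs 1).1 _ _ _ (by positivity) β0'.le (by positivity) (by positivity) o1
    have := on0 (hM.m0 1) hM.ckA (by positivity) β0' (by positivity) (by positivity) β0'
      (by positivity) o1 h1
    have h2 : (β - 1) * (β * ε * β') = 0 := by linear_combination -this
    have := (mul_eq_zero.1 h2).resolve_right (by positivity)
    linarith
  obtain rfl : β' = 1 := by
    have h1 := hB' _ _ hM.tB _ _ _ (by positivity) β0'.le (by positivity) (by positivity) o1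
    have := on2 (hM.m2 1) hM.ckB (by positivity) β0' (by positivity) (by positivity)
      (by positivity) (by positivity) o1 h1
    have h2 : (β' - 1) * (α * ε * β') = 0 := by linear_combination this
    have := (mul_eq_zero.1 h2).resolve_right (by positivity)
    linarith
  simp only [one_mul] at hA' hB' o1
  let W : ℕ → E := fun n => pt3 A B C (α * ε * (n : ℝ) ^ 2) 1 (ε * n)
  have hW0 : W 0 = B := by simp [W, b0]
  have hτ : ∀ b d n, Tau X b d → W n ∈ X (K [] b) → W (n + 1) ∈ X (K [] d) := by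
    rintro b d n ⟨t1, t2, t3, t4⟩ h
    have h1 := hA' _ _ t1 _ _ _ (by positivity) zero_le_one (by positivity) (by positivity) h
    have h2 := hB' _ _ t2 _ _ _ (by positivity) zero_le_one (by positivity) (by positivity) h1
    have h3 := hA' _ _ t3 _ _ _ (by positivity) zero_le_one (by positivity) (by positivity) h2
    convert t4 h3 using 2 <;> push_cast <;> ring
  have hch : ∀ k, k ≤ 17 → W k ∈ X (K [] (.ch k)) := by
    intro k
    induction k with
    | zero => exact fun _ => hW0 ▸ hM.ch0 mB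
    | succ k ih => exact fun hk => hτ _ _ _ (hM.chs ⟨k, hk⟩) (ih (by omega))
  refine ⟨W, hW0 ▸ mB, hch 1 (by norm_num), hτ, ?_, fun m => ?_⟩
  · have n2 : pt3 A B C (2 * α) 0 1 ∈ X (K [.A, .A] .v2) := by
      have h1 := hA' _ _ hM.v1 0 0 1 le_rfl le_rfl zero_le_one (by norm_num) (by rw [c0]; exact hM.v0 mC)
      have h2 := hA' _ _ hM.v2 _ 0 1 (by positivity) le_rfl zero_le_one (by positivity) h1
      convert h2 using 2
      ring
    have dN : pt3 A B C (2 * α) 0 1 ∈ X (.fix .D) :=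
      pt3_mem (hc _) dA dB dC (by positivity) le_rfl zero_le_one (by positivity)
    obtain ⟨μ1, p1, H1⟩ := htilt .R1 _ B A _ o1 mB mA n2 dB dA dN
    obtain ⟨μ2, p2, H2⟩ := htilt .R2 _ C A B n2 mC mA mB dC dA dB
    obtain ⟨μ0, p0, H0⟩ := htilt .R0 A A B C mA mA mB mC dA dB dC
    have key : ∀ b d (n : ℕ), Back X b d → W (n + 1) ∈ X (K [] b) →
        pt3 A B C (μ0 * (α * ε * (n : ℝ) ^ 2)) (μ1 * (α * ε + 1 + ε)) (μ2 * (2 * α + 1) * (ε * n)) ∈
          X (K [] d) := by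
      rintro b d n ⟨t1, t2, t3, t4⟩ h
      have e : W (n + 1) = pt3 A (pt3 A B C (2 * α) 0 1) (pt3 A B C (α * ε) 1 ε)
          (α * ε * (n : ℝ) ^ 2) (ε * n * (2 * α + 0 + 1)) (1 * (α * ε + 1 + ε)) := by
        rw [pt3_two _ _ _ (by positivity) (by positivity)]
        simp only [W]
        congr 1 <;> push_cast <;> ring
      rw [e] at h
      have h1 := H1 _ _ t1 _ _ _ (by positivity) (by positivity) (by positivity) (by positivity) h
      rw [pt3_swap23] at h1
      have h2 := H2 _ _ t2 _ _ _ (by positivity) (by positivity) (by positivity) (by positivity) h1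
      rw [pt3_rot] at h2
      have h3 := H0 _ _ t3 _ _ _ (by positivity) (by positivity) (by positivity) (by positivity) h2
      rw [← pt3_rot] at h3
      convert t4 h3 using 2 <;> ring
    have h1 := key _ _ 1 hM.bk (hch 2 (by norm_num))
    have e1 := on0 (hM.m0 1) (hM.m0 1) (by positivity) one_pos (by positivity) (by positivity)
      (by positivity) (by positivity) o1 h1
    have e2 := on2 (hM.m2 1) (hM.m2 1) (by positivity) one_pos (by positivity) (by positivity)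
      (by positivity) (by positivity) o1 h1
    simp only [Nat.cast_one, one_pow, mul_one] at e1 e2
    have e3 : μ1 * (α * ε + 1 + ε) = μ0 := mul_right_cancel₀ (by positivity) e2
    have e4 : μ2 * (2 * α + 1) = μ0 := e3 ▸ (mul_right_cancel₀ ε0.ne' e1).symm
    intro b d n t h
    have := key b d n t h
    rw [e3, e4] at this
    simp only [W]
    rw [← pt3_smul A B C _ _ _ p0.ne', mul_one]
    exact this
  · obtain ⟨μ2, p2, H2⟩ := htilt (.H2 m) C C A B mC mC mA mB dC dA dB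
    obtain ⟨μ0, p0, H0⟩ := htilt (.H0 m) A A B C mA mA mB mC dA dB dC
    have key : ∀ b (n : ℕ), Tilt X (.H2 m) [] b → Tilt X (.H0 m) [.H2 m] b → W n ∈ X (K [] b) →
        pt3 A B C (μ0 * (α * ε * (n : ℝ) ^ 2)) 1 (μ2 * (ε * n)) ∈ X (K [.H0 m, .H2 m] b) := by
      intro b n t1 t2 h
      have h1 := H2 _ _ t1 _ _ _ (by positivity) zero_le_one (by positivity) (by positivity) h
      rw [pt3_rot] at h1
      have h2 := H0 _ _ t2 _ _ _ zero_le_one (by positivity) (by positivity) (by positivity) h1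
      rwa [← pt3_rot] at h2
    have hp : ∀ c, 0 < pr c ∧ pr c ≤ 17 := by decide
    have hd : 0 < m.den ∧ m.den ≤ 17 := by cases m <;> simp [Mv.den, hp]
    have hn : m.num ≤ 17 := by cases m <;> simp [Mv.num, hp]
    have h1 := hM.dl3 m (key _ _ (hM.dl1 m) (hM.dl2 m) (hch _ hd.2))
    have e1 := on0 (hM.m0 ⟨m.num, by omega⟩) (hM.m0 ⟨m.num, by omega⟩) (by positivity) one_pos
      (by positivity) (by positivity) one_pos (by positivity) (hch _ hn) h1
    have e2 := on2 (hM.m2 ⟨m.num, by omega⟩) (hM.m2 ⟨m.num, by omega⟩) (by positivity) one_pos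
      (by positivity) (by positivity) one_pos (by positivity) (hch _ hn) h1
    have hd' : (0 : ℝ) < m.den := by exact_mod_cast hd.1
    have e3 : μ2 * m.den = m.num := mul_left_cancel₀ ε0.ne' (by linarith)
    have e4 : μ0 * (m.den : ℝ) ^ 2 = (m.num : ℝ) ^ 2 :=
      mul_left_cancel₀ (mul_pos α0 ε0).ne' (by linarith)
    intro b n n' t1 t2 e h
    have e' : (m.den : ℝ) * n' = m.num * n := by exact_mod_cast e
    have f1 : μ2 * n = n' := mul_left_cancel₀ hd'.ne' (by linear_combination n * e3 - e')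
    have f2 : μ0 * (n : ℝ) ^ 2 = (n' : ℝ) ^ 2 := mul_left_cancel₀ (pow_pos hd' 2).ne' (by
      linear_combination (n : ℝ) ^ 2 * e4 - (m.den * n' + m.num * n) * e')
    convert key b n t1 t2 h using 2
    · rw [← f2]; ring
    · rw [← f1]; ring

theorem sound : SoundStmt := by
  rintro ι R z X hc hcl ⟨hL, hT, hM, hR, hF, hne⟩
  obtain ⟨W, h0, h1, hτ, hback, hdil⟩ := exists_points hc hcl hL hT hM hne
  have hgrid : ∀ n, W n ∈ X (K [] .grid) := fun n => by
    induction n with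
    | zero => exact hM.gr0 h0
    | succ n ih => exact hτ _ _ _ hM.gr1 ih
  have hd : ∀ m b d n n', Dil X m b d → m.den * n' = m.num * n → W n ∈ X (K [] b) →
      W n' ∈ X (K [] d) := fun m b d n n' t e h => t.2.2 ⟨hdil m b n n' t.1 t.2.1 e h, hgrid _⟩
  have hwait : ∀ b n k, Dil X .wait b b → W n ∈ X (K [] b) → W (n * 17 ^ k) ∈ X (K [] b) := by
    intro b n k t h
    induction k with
    | zero => simpa using h
    | succ k ih => exact hd _ _ _ _ _ t (by simp [Mv.den, Mv.num]; ring) ih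
  have hhalt : ∀ n, W n ∉ X (K [] .halt) := fun n => by
    induction n with
    | zero => exact disjoint_left.1 hM.ha1 h0
    | succ n ih => exact fun h => ih (hback _ _ _ hM.ha0 h)
  refine ⟨fun j => {v | ∃ k, W (tn v * 17 ^ k) ∈ X (K [] (.user j))}, fun r hr => ?_, ?_⟩
  · have hr' := hR r hr
    cases r with
    | base j => exact ⟨0, by simpa [tn_zero] using hr' h1⟩
    | up c i j =>
      rintro v ⟨k, hk⟩
      exact ⟨k, hd _ _ _ _ _ hr' (by simp [Mv.den, Mv.num, tn_inc]; ring) hk⟩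
    | down c i j =>
      rintro v ⟨k, hk⟩
      exact ⟨k + 1, hd _ _ _ _ _ hr' (by simp [Mv.den, Mv.num, tn_inc]; ring) hk⟩
    | inter i l j =>
      rintro v ⟨⟨k, hk⟩, k', hk'⟩
      refine ⟨k + k', hr'.2.2 ⟨?_, ?_⟩⟩
      · convert hwait _ _ k' hr'.1 hk using 2
        ring
      · convert hwait _ _ k hr'.2.1 hk' using 2
        ring
  · rintro ⟨k, hk⟩
    rw [tn_zero] at hk
    exact hhalt _ (hF ⟨hk, hwait _ 1 k hM.pw1 (hM.pw0 h1)⟩)

end Pool.Agent.MP_082264_lc.Cl
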