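import Pool.Agent.MP_082264_lc.cl.Red
import Pool.Agent.MP_082264_lc.cl.Sound
import Pool.Agent.MP_082264_lc.cl.Model

/-!
No recursively enumerable class of codes lies between the compact and the closed convex codes
of dimension three.
-/

set_option autoImplicit false

namespace Pool.Agent.MP_082264_lc.Cl

open Set Function

theorem re_iff_exists {α : Type} [Primcodable α] {A : α → Prop} (h : REPred A) :
    ∃ R : α → ℕ → Prop, ComputablePred (fun p : α × ℕ => R p.1 p.2) ∧ ∀ a, A a ↔ ∃ k, R a k := by
  obtain ⟨c, hc⟩ := Nat.Partrec.Code.exists_code.1 h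
  refine ⟨fun a k => (c.evaln k (Encodable.encode a)).isSome = true, ?_, fun a => ?_⟩
  · refine Computable.computablePred ?_
    have := (Primrec.option_isSome.comp (Nat.Partrec.Code.primrec_evaln.comp
      ((Primrec.snd.pair (Primrec.const c)).pair
        (Primrec.encode.comp (Primrec.fst (α := α) (β := ℕ)))))).to_comp
    exact this.of_eq fun p => by simp
  · have e := congrFun hc (Encodable.encode a)
    simp only [Encodable.encodek, Part.coe_some, Part.bind_some] at e
    simp only [Option.isSome_iff_exists, ← Option.mem_def]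
    rw [exists_comm]
    simp only [← Nat.Partrec.Code.evaln_complete, e]
    simp [Part.assert]

theorem not_re_between (A : ℕ × List (List ℕ) → Prop)
    (lo : ∀ p, CodeIn (fun s => Convex ℝ s ∧ IsCompact s) p → A p)
    (hi : ∀ p, A p → CodeIn (fun s => Convex ℝ s ∧ IsClosed s) p) : ¬ REPred A := by
  intro h
  obtain ⟨R, hR, hA⟩ := re_iff_exists h
  have hf : Nat.Partrec fun n => (Denumerable.ofNat Nat.Partrec.Code n).eval 0 :=
    Partrec.nat_iff.1 (Nat.Partrec.Code.eval_part.comp (Computable.ofNat _) (Computable.const 0))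
  obtain ⟨F, Q, hF, hFQ⟩ := exists_patterns sound complete hf
  classical
  have h1 : ComputablePred fun p : Nat.Partrec.Code × ((ℕ × List (List ℕ)) × ℕ) =>
      R p.2.1 p.2.2 ∧ Good (F (Encodable.encode p.1)) Q p.2.1.2 := by
    have a1 := hR.decide.comp (Computable.snd (α := Nat.Partrec.Code))
    have a2 := ((primrec_good Q).comp (hF.comp (Primrec.encode.comp
      (Primrec.fst (α := Nat.Partrec.Code) (β := (ℕ × List (List ℕ)) × ℕ))))
      (Primrec.snd.comp (Primrec.fst.comp Primrec.snd))).decide.to_comp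
    exact Computable.computablePred ((Primrec.and.to_comp.comp a1 a2).of_eq fun p => by simp)
  refine ComputablePred.halting_problem_not_re 0 ((re_exists
    (R := fun c (q : (ℕ × List (List ℕ)) × ℕ) =>
      R q.1 q.2 ∧ Good (F (Encodable.encode c)) Q q.1.2) h1).of_eq fun c => ?_)
  have hc' := hFQ (Encodable.encode c)
  simp only [Denumerable.ofNat_encode] at hc'
  constructor
  · rintro ⟨q, hq, hg⟩
    exact hc'.1 ((patterns_iff (Φ := fun s => Convex ℝ s ∧ IsClosed s)
      ⟨convex_empty, isClosed_empty⟩ _ _).2 ⟨q.1, hi _ ((hA _).2 ⟨_, hq⟩), hg⟩)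
  · intro hn
    obtain ⟨q, hq, hg⟩ := (patterns_iff (Φ := fun s => Convex ℝ s ∧ IsCompact s)
      ⟨convex_empty, isCompact_empty⟩ _ _).1 (hc'.2 hn)
    obtain ⟨k, hk⟩ := (hA q).1 (lo q hq)
    exact ⟨(q, k), hk, hg⟩

end Pool.Agent.MP_082264_lc.Cl
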