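import Pool.Agent.MP_082264_lc.cl.Defs

/-!
The reduction: the constraints of `Defs` are finite lists of forbidden patterns, primitive
recursive in the input; a closed solution is cut down to a compact one by a large ball.
-/

set_option autoImplicit false

namespace Pool.Agent.MP_082264_lc.Cl

open Set Function

variable {ι : Type}

theorem ex_int {N : Type} (A B C : N) : Expr (fun X => X A ∩ X B ⊆ X C) :=
  (Expr.pat ([A, B], [C])).of_iff fun X => by simp [Forb, subset_def]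

theorem ex_int3 {N : Type} (A B C D : N) : Expr (fun X => X A ∩ (X B ∩ X C) ⊆ X D) :=
  (Expr.pat ([A, B, C], [D])).of_iff fun X => by simp [Forb, subset_def]

def tiltP (e : El) (L : List El) (b : Bs ι) : List (Pat (Name ι)) :=
  [([K L b], [.aux (.X e) L b]), ([P (.a e)], [.aux (.X e) L b]),
    ([.aux (.X e) L b, .fix (.D' e)], [.aux (.Y e) L b]), ([P (.a' e)], [.aux (.Y e) L b]),
    ([.aux (.Y e) L b, .fix .D], [K (e :: L) b])]

theorem tilt_iff (X : Name ι → Set E) (e : El) (L : List El) (b : Bs ι) :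
    (∀ p ∈ tiltP e L b, Forb X p) ↔ Tilt X e L b := by
  simp [tiltP, Tilt, Forb, subset_def]

def dilP (m : Mv) (b d : Bs ι) : List (Pat (Name ι)) :=
  tiltP (.H2 m) [] b ++ (tiltP (.H0 m) [.H2 m] b ++
    [([K [.H0 m, .H2 m] b, K [] .grid], [K [] d])])

theorem dil_iff (X : Name ι → Set E) (m : Mv) (b d : Bs ι) :
    (∀ p ∈ dilP m b d, Forb X p) ↔ Dil X m b d := by
  rw [dilP, List.forall_mem_append, List.forall_mem_append, tilt_iff, tilt_iff, Dil]
  simp [Forb, subset_def]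

theorem ex_tilt (e : El) (L : List El) (b : Bs ι) : Expr (fun X => Tilt X e L b) :=
  ⟨tiltP e L b, fun X => tilt_iff X e L b⟩

theorem ex_dil (m : Mv) (b d : Bs ι) : Expr (fun X => Dil X m b d) :=
  ⟨dilP m b d, fun X => dil_iff X m b d⟩

theorem ex_tau (b d : Bs ι) : Expr (fun X => Tau X b d) :=
  (ex_tilt _ _ _).and ((ex_tilt _ _ _).and ((ex_tilt _ _ _).and (Expr.sub _ _)))

theorem ex_back (b d : Bs ι) : Expr (fun X => Back X b d) :=
  (ex_tilt _ _ _).and ((ex_tilt _ _ _).and ((ex_tilt _ _ _).and (Expr.sub _ _)))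

theorem ex_rule (r : Rule ι) : Expr (fun X => RuleCons X r) := by
  cases r with
  | base j => exact Expr.sub _ _
  | up c i j => exact ex_dil _ _ _
  | down c i j => exact ex_dil _ _ _
  | inter i l j => exact (ex_dil _ _ _).and ((ex_dil _ _ _).and (ex_int _ _ _))

theorem ex_rules (R : List (Rule ι)) : Expr (fun X => ∀ r ∈ R, RuleCons X r) := by
  induction R with
  | nil => exact ⟨[], fun X => by simp⟩
  | cons r R ih => exact ((ex_rule r).and ih).of_iff fun X => by simp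

theorem ex_onL (n : Name ι) (l : Ln) : Expr (fun X => OnL X n l) :=
  (Expr.sub _ _).and (Expr.sub _ _)

theorem ex_btw (x y z u u' : Name ι) : Expr (fun X => Btw X x y z u u') :=
  (Expr.sub _ _).and ((Expr.sub _ _).and ((Expr.dis _ _).and ((Expr.sub _ _).and
    ((Expr.sub _ _).and (Expr.dis _ _)))))

theorem ex_flat (l : Ln) (s : Bool) : Expr (fun X : Name ι → Set E => Flat X l s) :=
  (Expr.cov _ _ _).and <| (Expr.sub _ _).and <| (Expr.sub _ _).and <| (Expr.sub _ _).and <|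
    (Expr.sub _ _).and <| (Expr.sub _ _).and <| (Expr.sub _ _).and <| (Expr.sub _ _).and <|
    (Expr.sub _ _).and <| (Expr.sub _ _).and <| (Expr.sub _ _).and <| (ex_int3 _ _ _ _).and <|
    (ex_int3 _ _ _ _).and (Expr.dis _ _)

open Expr in
theorem ex_line : Expr (fun X : Name ι → Set E => LineCons X) := by
  have h := (all fun l => all fun s => ex_flat (ι := ι) l s).and <|
    (all fun l => all fun k => sub (P (.tet l k)) (F l (decide (k = 3)) .C)).and <|
    (all fun l => all fun k => all fun j =>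
      imp (j ≠ k) (sub (P (.tet l j)) (.fix (.FT l k)))).and <|
    (all fun l => none (fun k => .fix (.FT l k)))
  exact h.of_iff fun X => ⟨fun ⟨a, b, c, d⟩ => ⟨a, b, c, d⟩, fun ⟨a, b, c, d⟩ => ⟨a, b, c, d⟩⟩

open Expr in
theorem ex_tiltCons : Expr (fun X : Name ι → Set E => TiltCons X) := by
  have h1 := (all fun i => all fun j =>
      imp (j ≠ i) (sub (N := Name ι) (P (.V j)) (.fix (.FV i)))).and <|
    (none (fun i => .fix (.FV i))).and <|
    (all fun i => sub (P (.V i)) (.fix .D)).and <|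
    (all fun e => ex_onL (P (.a e)) (.t e false)).and <|
    (all fun e => ex_onL (P (.v e)) (.t e false)).and <|
    (all fun e => ex_onL (src e) (.t e false)).and <|
    (all fun e => ex_onL (P (.v e)) (.t e true)).and <|
    (all fun e => ex_onL (tgt e) (.t e true)).and <|
    (all fun e => ex_onL (P (.a' e)) (.t e true)).and <|
    (all fun e => ex_btw (P (.a e)) (P (.v e)) (src e) (.fix (.U e 0)) (.fix (.U e 1))).and <|
    (all fun e => ex_btw (P (.v e)) (tgt e) (P (.a' e)) (.fix (.U e 2)) (.fix (.U e 3)))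
  have h2 := (all fun e => sub (N := Name ι) (P (.v e)) (.fix (.D' e))).and <|
    (all fun e => sub (f1 e) (.fix (.D' e))).and <|
    (all fun e => sub (f2 e) (.fix (.D' e))).and <|
    (ex_onL (P (.V 0)) .edge).and <| (ex_onL (P .M) .edge).and <| (ex_onL (P (.V 2)) .edge).and <|
    (ex_btw (P (.V 0)) (P .M) (P (.V 2)) (.fix (.UM 0)) (.fix (.UM 1))).and <|
    (ex_onL (P (.V 1)) (.c2 0)).and <| (ex_onL (P .M') (.c2 0)).and <|
    (ex_btw (P (.V 1)) (P .M') (P (.V 2)) (.fix (.UM 2)) (.fix (.UM 3)))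
  refine (h1.and h2).of_iff fun X => ⟨?_, fun h => ?_⟩
  · rintro ⟨⟨a1, a2, a3, a4, a5, a6, a7, a8, a9, a10, a11⟩,
      ⟨b1, b2, b3, b4, b5, b6, b7, b8, b9, b10⟩⟩
    exact ⟨a1, a2, a3, a4, a5, a6, a7, a8, a9, a10, a11, b1, b2, b3, b4, b5, b6, b7, b8, b9, b10⟩
  · obtain ⟨a1, a2, a3, a4, a5, a6, a7, a8, a9, a10, a11, b1, b2, b3, b4, b5, b6, b7, b8, b9,
      b10⟩ := h
    exact ⟨⟨a1, a2, a3, a4, a5, a6, a7, a8, a9, a10, a11⟩,
      ⟨b1, b2, b3, b4, b5, b6, b7, b8, b9, b10⟩⟩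

open Expr in
theorem ex_mapCons : Expr (fun X : Name ι → Set E => MapCons X) := by
  have h1 := (all fun k => ex_onL (ι := ι) (P (.V 0)) (.c0 k)).and <|
    (all fun k => ex_onL (P (.V 2)) (.c2 k)).and <|
    (all fun k : Fin 18 => ex_onL (K [] (.ch k)) (.c0 k)).and <|
    (all fun k : Fin 18 => ex_onL (K [] (.ch k)) (.c2 k)).and <|
    (sub (P (.V 1)) (K [] (.ch 0))).and <|
    (all fun k : Fin 17 => ex_tau (.ch k) (.ch (k + 1))).and <|
    (ex_onL (K [.A] (.ch 1)) (.c0 1)).and <|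
    (ex_tilt .B [] (.ch 1)).and <|
    (ex_onL (K [.B] (.ch 1)) (.c2 1)).and <|
    (sub (P (.V 2)) (K [] .v2)).and <|
    (ex_tilt .A [] .v2)
  have h2 := (ex_tilt (ι := ι) .A [.A] .v2).and <|
    (ex_back (.ch 2) (.ch 1)).and <|
    (all fun m : Mv => ex_tilt (.H2 m) [] (.ch m.den)).and <|
    (all fun m : Mv => ex_tilt (.H0 m) [.H2 m] (.ch m.den)).and <|
    (all fun m : Mv => sub (K [.H0 m, .H2 m] (.ch m.den)) (K [] (.ch m.num))).and <|
    (sub (P (.V 1)) (K [] .grid)).and <|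
    (ex_tau .grid .grid).and <|
    (sub (K [] (.ch 1)) (K [] .pw)).and <|
    (ex_dil .wait .pw .pw).and <|
    (ex_back .halt .halt).and <|
    (dis (P (.V 1)) (K [] .halt))
  refine (h1.and h2).of_iff fun X => ⟨?_, fun h => ?_⟩
  · rintro ⟨⟨a1, a2, a3, a4, a5, a6, a7, a8, a9, a10, a11⟩,
      ⟨b1, b2, b3, b4, b5, b6, b7, b8, b9, b10, b11⟩⟩
    exact ⟨a1, a2, a3, a4, a5, a6, a7, a8, a9, a10, a11, b1, b2, b3, b4, b5, b6, b7, b8, b9, b10,
      b11⟩
  · obtain ⟨a1, a2, a3, a4, a5, a6, a7, a8, a9, a10, a11, b1, b2, b3, b4, b5, b6, b7, b8, b9,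
      b10, b11⟩ := h
    exact ⟨⟨a1, a2, a3, a4, a5, a6, a7, a8, a9, a10, a11⟩,
      ⟨b1, b2, b3, b4, b5, b6, b7, b8, b9, b10, b11⟩⟩

/-- The constraints without the non-emptiness of the named points. -/
def Cons₀ (X : Name ι → Set E) (R : List (Rule ι)) (z : ι) : Prop :=
  LineCons X ∧ TiltCons X ∧ MapCons X ∧ (∀ r ∈ R, RuleCons X r) ∧ Final X z

theorem cons₀_empty (R : List (Rule ι)) (z : ι) : Cons₀ (fun _ => (∅ : Set E)) R z := by
  refine ⟨?_, ?_, ?_, fun r _ => ?_, ?_⟩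
  · constructor <;> simp [Flat]
  · constructor <;> simp [OnL, Btw]
  · constructor <;> simp [OnL, Tau, Back, Dil, Tilt]
  · cases r <;> simp [RuleCons, Dil, Tilt]
  · simp [Final]

def strip : Name (ι ⊕ ℕ) → Name (ι ⊕ ℕ)
  | .aux t L (.user (.inr _)) => .aux t L (.user (.inr 0))
  | n => n

def num : Name (ι ⊕ ℕ) → ℕ
  | .aux _ _ (.user (.inr k)) => k
  | _ => 0

def enc (e : Name (ι ⊕ ℕ) → ℕ) (n : Name (ι ⊕ ℕ)) : ℕ := Nat.pair (e (strip n)) (num n)

theorem enc_inj {e : Name (ι ⊕ ℕ) → ℕ} (he : Injective e) : Injective (enc e) := by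
  intro n n' h
  obtain ⟨h1, h2⟩ := Nat.pair_eq_pair.1 h
  replace h1 := he h1
  rcases n with a | ⟨t, L, (j | k) | _ | _ | _ | _ | c⟩ <;>
    rcases n' with a' | ⟨t', L', (j' | k') | _ | _ | _ | _ | c'⟩ <;>
    simp_all [strip, num]

theorem primrec_enc (e : Name (ι ⊕ ℕ) → ℕ) (t : Tag) (L : List El) :
    Primrec fun k => enc e (.aux t L (.user (.inr k))) :=
  (Primrec₂.natPair.comp (Primrec.const (e (.aux t L (.user (.inr 0))))) Primrec.id).of_eq
    fun _ => rfl

theorem primrec_chain (e : Name (ι ⊕ ℕ) → ℕ) :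
    Primrec fun k => (dilP (ι := ι ⊕ ℕ) (.down 0) (.user (.inr k))
      (.user (.inr (k + 1)))).map (encP (enc e)) := by
  have h : ∀ t L, Primrec fun k => enc e (.aux t L (.user (.inr k))) := fun t L =>
    primrec_enc e t L
  have h' : Primrec fun k => enc e (.aux .K [] (.user (.inr (k + 1)))) :=
    (h .K []).comp Primrec.succ
  have pc : ∀ {β : Type} [Primcodable β] {f : ℕ → β} {g : ℕ → List β}, Primrec f → Primrec g →
      Primrec fun a => f a :: g a := fun hf hg => Primrec.list_cons.comp hf hg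
  simp only [dilP, tiltP, List.cons_append, List.nil_append, List.map, encP]
  repeat' first
    | exact Primrec.const _
    | exact h _ _
    | exact h'
    | apply pc
    | apply Primrec.pair

/-- Patterns with a non-empty first list survive the cut by a large ball. -/
theorem cut_ball {F : List (Pat ℕ)} {Q : List ℕ} (h0 : ∀ p ∈ F, Forb (fun _ => (∅ : Set E)) p)
    {X : ℕ → Set E} (hc : ∀ i, Convex ℝ (X i) ∧ IsClosed (X i)) (hF : ∀ p ∈ F, Forb X p)
    (hQ : ∀ r ∈ Q, (X r).Nonempty) :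
    ∃ X : ℕ → Set E, (∀ i, Convex ℝ (X i) ∧ IsCompact (X i)) ∧ (∀ p ∈ F, Forb X p) ∧
      ∀ r ∈ Q, (X r).Nonempty := by
  obtain ⟨ρ, hρ⟩ : ∃ ρ : ℝ, ∀ r ∈ Q, (X r ∩ Metric.closedBall 0 ρ).Nonempty := by
    clear hF h0
    induction Q with
    | nil => exact ⟨0, by simp⟩
    | cons r Q ih =>
      obtain ⟨ρ, hρ⟩ := ih fun s hs => hQ s (List.mem_cons_of_mem _ hs)
      obtain ⟨x, hx⟩ := hQ r List.mem_cons_self
      refine ⟨max ρ ‖x‖, List.forall_mem_cons.2 ⟨⟨x, hx, by simp⟩, fun s hs => ?_⟩⟩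
      exact (hρ s hs).mono (inter_subset_inter_right _
        (Metric.closedBall_subset_closedBall (le_max_left _ _)))
  refine ⟨fun i => X i ∩ Metric.closedBall 0 ρ, fun i => ⟨(hc i).1.inter (convex_closedBall _ _),
    (isCompact_closedBall _ _).inter_left (hc i).2⟩, fun p hp x hx => ?_, hρ⟩
  obtain ⟨b, hb, hb'⟩ := hF p hp x fun a ha => (hx a ha).1
  obtain ⟨a, ha⟩ : ∃ a, a ∈ p.1 := by
    by_contra hn
    obtain ⟨_, -, h⟩ := h0 p hp x fun a ha => absurd ⟨a, ha⟩ hn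
    exact h
  exact ⟨b, hb, hb', (hx a ha).2⟩

/-- Closed solvability gives non halting, and non halting gives compact solvability. -/
theorem exists_patterns (hs : SoundStmt) (hc : CompleteStmt) {f : ℕ →. ℕ} (hf : Nat.Partrec f) :
    ∃ (F : ℕ → List (Pat ℕ)) (Q : List ℕ), Primrec F ∧ ∀ n,
      ((∃ X : ℕ → Set E, (∀ i, Convex ℝ (X i) ∧ IsClosed (X i)) ∧ (∀ p ∈ F n, Forb X p) ∧
        ∀ r ∈ Q, (X r).Nonempty) → ¬ (f n).Dom) ∧
      (¬ (f n).Dom → ∃ X : ℕ → Set E, (∀ i, Convex ℝ (X i) ∧ IsCompact (X i)) ∧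
        (∀ p ∈ F n, Forb X p) ∧ ∀ r ∈ Q, (X r).Nonempty) := by
  obtain ⟨ι, _, R, o, h1, h2⟩ := exists_system hf
  obtain ⟨e, he⟩ := exists_injective_nat (Name (ι ⊕ ℕ))
  obtain ⟨F₀, hF₀⟩ := (ex_line (ι := ι ⊕ ℕ)).and (ex_tiltCons.and (ex_mapCons.and
    (ex_rules (headRules R o))))
  refine ⟨fun n => F₀.map (encP (enc e)) ++ ((List.range n).flatMap
      (fun k => (dilP (ι := ι ⊕ ℕ) (.down 0) (.user (.inr k))
        (.user (.inr (k + 1)))).map (encP (enc e))) ++
      [([enc e (K [] (.user (.inr n))), enc e (K [] .pw)], [enc e (K [] .halt)])]),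
    (Finset.univ : Finset Pt).toList.map (fun y => enc e (P y)), ?_, fun n => ?_⟩
  · refine Primrec.list_append.comp (Primrec.const _) (Primrec.list_append.comp
      (Primrec.list_flatMap Primrec.list_range ((primrec_chain e).comp Primrec.snd).to₂) ?_)
    refine Primrec.list_cons.comp (Primrec.pair ?_ (Primrec.const _)) (Primrec.const _)
    exact Primrec.list_cons.comp (primrec_enc e .K []) (Primrec.const _)
  have key : ∀ X : ℕ → Set E, (∀ p ∈ F₀.map (encP (enc e)) ++ ((List.range n).flatMap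
      (fun k => (dilP (ι := ι ⊕ ℕ) (.down 0) (.user (.inr k))
        (.user (.inr (k + 1)))).map (encP (enc e))) ++
      [([enc e (K [] (.user (.inr n))), enc e (K [] .pw)], [enc e (K [] .halt)])]), Forb X p) ↔
      Cons₀ (X ∘ enc e) (headRules R o ++ (List.range n).map chainRule) (.inr n) := by
    intro X
    have e1 : (∀ p ∈ (List.range n).flatMap
        (fun k => (dilP (ι := ι ⊕ ℕ) (.down 0) (.user (.inr k))
          (.user (.inr (k + 1)))).map (encP (enc e))), Forb X p) ↔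
        ∀ r ∈ (List.range n).map chainRule, RuleCons (X ∘ enc e) r := by
      simp only [List.mem_flatMap, List.mem_map, forall_exists_index, and_imp,
        forall_apply_eq_imp_iff₂, chainRule, RuleCons, ← dil_iff, ← forb_encP]
      constructor
      · exact fun h k hk p hp => h _ k hk p hp rfl
      · rintro h _ k hk p hp rfl
        exact h k hk p hp
    have e2 : Forb X ([enc e (K [] (.user (.inr n))), enc e (K [] .pw)], [enc e (K [] .halt)]) ↔
        Final (X ∘ enc e) (.inr n) := by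
      simp [Forb, Final, subset_def]
    rw [Cons₀, List.forall_mem_append, List.forall_mem_append, List.forall_mem_append, e1,
      List.forall_mem_singleton, e2, List.forall_mem_map]
    simp only [forb_encP, hF₀]
    tauto
  have keyQ : ∀ X : ℕ → Set E,
      (∀ r ∈ (Finset.univ : Finset Pt).toList.map (fun y => enc e (P y)), (X r).Nonempty) ↔
      ∀ y, ((X ∘ enc e) (P y)).Nonempty := fun X => by
    simp only [List.forall_mem_map, Finset.mem_toList, Finset.mem_univ, true_imp_iff, comp_apply]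
  rw [← chain_iff (D := fun n => (f n).Dom) h1 h2 n]
  constructor
  · rintro ⟨X, hX, hF, hQ⟩
    obtain ⟨a1, a2, a3, a4, a5⟩ := (key X).1 hF
    exact hs _ _ _ (X ∘ enc e) (fun _ => (hX _).1) (fun _ => (hX _).2)
      ⟨a1, a2, a3, a4, a5, (keyQ X).1 hQ⟩
  · rintro ⟨S, hS, h0⟩
    obtain ⟨X, c1, c2, a1, a2, a3, a4, a5, a6⟩ := hc _ _ _ S hS h0
    have hext : extend (enc e) X (fun _ => ∅) ∘ enc e = X := extend_comp (enc_inj he) _ _
    refine cut_ball ((key _).2 (cons₀_empty _ _)) (X := extend (enc e) X (fun _ => ∅))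
      (fun i => ?_) ((key _).2 (hext.symm ▸ ⟨a1, a2, a3, a4, a5⟩)) ((keyQ _).2 (hext.symm ▸ a6))
    by_cases hi : ∃ a, enc e a = i
    · obtain ⟨a, rfl⟩ := hi
      rw [(enc_inj he).extend_apply]
      exact ⟨c1 a, c2 a⟩
    · rw [extend_apply' _ _ _ hi]
      exact ⟨convex_empty, isClosed_empty⟩

/-- Exact realizability of a code by sets of the class `Φ`. -/
def CodeIn (Φ : Set E → Prop) (p : ℕ × List (List ℕ)) : Prop :=
  (∀ l ∈ p.2, ∀ i ∈ l, i < p.1) ∧
    ∃ X : ℕ → Set E, (∀ i, Φ (X i)) ∧ (∀ i, p.1 ≤ i → X i = ∅) ∧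
      {S : Set ℕ | ∃ x : E, S = {i | x ∈ X i}} = {S : Set ℕ | ∃ l ∈ p.2, S = {i | i ∈ l}}

theorem patterns_iff {Φ : Set E → Prop} (hΦ : Φ ∅) (F : List (Pat ℕ)) (Q : List ℕ) :
    (∃ X : ℕ → Set E, (∀ i, Φ (X i)) ∧ (∀ p ∈ F, Forb X p) ∧ ∀ r ∈ Q, (X r).Nonempty) ↔
      ∃ q, CodeIn Φ q ∧ Good F Q q.2 := by
  classical
  constructor
  · rintro ⟨X, hc, hF, hQ⟩
    obtain ⟨N, hN⟩ : ∃ N, (∀ p ∈ F, ∀ b ∈ p.2, b < N) ∧ ∀ r ∈ Q, r < N := by
      obtain ⟨N, hN⟩ := (Q ++ F.flatMap Prod.snd).finite_toSet.bddAbove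
      refine ⟨N + 1, fun p hp b hb => Nat.lt_succ_of_le (hN ?_), fun r hr =>
        Nat.lt_succ_of_le (hN ?_)⟩
      · simp only [mem_ofPred_eq, List.mem_append, List.mem_flatMap]
        exact Or.inr ⟨p, hp, hb⟩
      · simp [hr]
    let C := (List.range N).sublists.filter (fun l => ∃ x : E, ∀ i, i ∈ l ↔ i < N ∧ x ∈ X i)
    have hC : ∀ l ∈ C, ∃ x : E, ∀ i, i ∈ l ↔ i < N ∧ x ∈ X i := fun l hl => by
      simpa using (List.mem_filter.1 hl).2
    have hC' : ∀ x : E, ∃ l ∈ C, ∀ i, i ∈ l ↔ i < N ∧ x ∈ X i := fun x => by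
      have : ∀ i, i ∈ (List.range N).filter (fun i => x ∈ X i) ↔ i < N ∧ x ∈ X i := by simp
      exact ⟨_, List.mem_filter.2 ⟨List.mem_sublists.2 List.filter_sublist,
        decide_eq_true ⟨x, this⟩⟩, this⟩
    refine ⟨(N, C), ⟨fun l hl i hi => ?_, fun i => if i < N then X i else ∅, fun i => ?_,
      fun i hi => if_neg (not_lt.2 hi), ?_⟩, fun p hp l hl ha => ?_, fun r hr => ?_⟩
    · obtain ⟨x, hx⟩ := hC l hl
      exact ((hx i).1 hi).1
    · by_cases hi : i < N <;> simp [hi, hc i, hΦ]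
    · ext S
      constructor
      · rintro ⟨x, rfl⟩
        obtain ⟨l, hl, hx⟩ := hC' x
        exact ⟨l, hl, Set.ext fun i => by simp [hx]⟩
      · rintro ⟨l, hl, rfl⟩
        obtain ⟨x, hx⟩ := hC l hl
        exact ⟨x, Set.ext fun i => by simp [hx]⟩
    · obtain ⟨x, hx⟩ := hC l hl
      obtain ⟨b, hb, hb'⟩ := hF p hp x (fun a h => ((hx a).1 (ha a h)).2)
      exact ⟨b, hb, (hx b).2 ⟨hN.1 p hp b hb, hb'⟩⟩
    · obtain ⟨x, hx⟩ := hQ r hr
      obtain ⟨l, hl, h⟩ := hC' x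
      exact ⟨l, hl, (h r).2 ⟨hN.2 r hr, hx⟩⟩
  · rintro ⟨q, ⟨-, X, hc, -, hX⟩, h1, h2⟩
    refine ⟨X, hc, fun p hp x hx => ?_, fun r hr => ?_⟩
    · obtain ⟨l, hl, e⟩ : {i | x ∈ X i} ∈ {S : Set ℕ | ∃ l ∈ q.2, S = {i | i ∈ l}} :=
        hX ▸ ⟨x, rfl⟩
      have e' : ∀ i, x ∈ X i ↔ i ∈ l := Set.ext_iff.1 e
      obtain ⟨b, hb, hb'⟩ := h1 p hp l hl (fun a ha => (e' a).1 (hx a ha))
      exact ⟨b, hb, (e' b).2 hb'⟩
    · obtain ⟨l, hl, hr'⟩ := h2 r hr
      obtain ⟨x, e⟩ : {i | i ∈ l} ∈ {S : Set ℕ | ∃ x : E, S = {i | x ∈ X i}} :=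
        hX ▸ ⟨l, hl, rfl⟩
      exact ⟨x, (Set.ext_iff.1 e r).1 hr'⟩

/-- No decidable class of codes lies between the compact and the closed convex codes. -/
theorem not_computable_between (hs : SoundStmt) (hc : CompleteStmt)
    (A : ℕ × List (List ℕ) → Prop)
    (lo : ∀ p, CodeIn (fun s => Convex ℝ s ∧ IsCompact s) p → A p)
    (hi : ∀ p, A p → CodeIn (fun s => Convex ℝ s ∧ IsClosed s) p) : ¬ ComputablePred A := by
  intro h
  have hf : Nat.Partrec fun n => (Denumerable.ofNat Nat.Partrec.Code n).eval 0 :=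
    Partrec.nat_iff.1 (Nat.Partrec.Code.eval_part.comp (Computable.ofNat _) (Computable.const 0))
  obtain ⟨F, Q, hF, hFQ⟩ := exists_patterns hs hc hf
  classical
  have h1 : ComputablePred fun p : Nat.Partrec.Code × (ℕ × List (List ℕ)) =>
      A p.2 ∧ Good (F (Encodable.encode p.1)) Q p.2.2 := by
    have a1 := h.decide.comp (Computable.snd (α := Nat.Partrec.Code))
    have a2 := ((primrec_good Q).comp (hF.comp (Primrec.encode.comp
      (Primrec.fst (α := Nat.Partrec.Code) (β := ℕ × List (List ℕ)))))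
      (Primrec.snd.comp Primrec.snd)).decide.to_comp
    exact Computable.computablePred ((Primrec.and.to_comp.comp a1 a2).of_eq fun p => by simp)
  refine ComputablePred.halting_problem_not_re 0 ((re_exists
    (R := fun c q => A q ∧ Good (F (Encodable.encode c)) Q q.2) h1).of_eq fun c => ?_)
  have hc' := hFQ (Encodable.encode c)
  simp only [Denumerable.ofNat_encode] at hc'
  constructor
  · rintro ⟨q, hq, hg⟩
    exact hc'.1 ((patterns_iff (Φ := fun s => Convex ℝ s ∧ IsClosed s)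
      ⟨convex_empty, isClosed_empty⟩ _ _).2 ⟨q, hi q hq, hg⟩)
  · intro hn
    obtain ⟨q, hq, hg⟩ := (patterns_iff (Φ := fun s => Convex ℝ s ∧ IsCompact s)
      ⟨convex_empty, isCompact_empty⟩ _ _).1 (hc'.2 hn)
    exact ⟨q, lo q hq, hg⟩

end Pool.Agent.MP_082264_lc.Cl
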